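import Mathlib

/-!
# Project ZF: a zero-free region for `L(E/K, s)`, `K` any number field with doubly transitive group

`E : y² = x³ + a x + b` over `ℚ` with newform `f`, `K` a number field of degree `n` with
`K ⊗ K ≅ K × K₂`, `K₂` a field.  Statements of the packages and the goal.
-/

set_option autoImplicit false

open NumberField IsDedekindDomain UpperHalfPlane MatrixGroups CongruenceSubgroup Filter Topology
open scoped TensorProduct ComplexConjugate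

namespace Pool.Agent.U309.ZF

/-! ### The L-function -/

section field

variable {K : Type} [Field K] [NumberField K]

/-- `q_v`, the number of elements of the residue field. -/
noncomputable def q (v : HeightOneSpectrum (𝓞 K)) : ℝ := (Ideal.absNorm v.asIdeal : ℝ)

/-- `a_v = q_v + 1 - #E(k_v)` for the curve `y² = x³ + a x + b` over the residue field `k_v`: `q_v` minus
the number of the affine points. -/
noncomputable def av (a b : ℤ) (v : HeightOneSpectrum (𝓞 K)) : ℝ :=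
  q v - (Nat.card {P : (𝓞 K ⧸ v.asIdeal) × (𝓞 K ⧸ v.asIdeal) //
    P.2 ^ 2 = P.1 ^ 3 + (a : 𝓞 K ⧸ v.asIdeal) * P.1 + (b : 𝓞 K ⧸ v.asIdeal)} : ℝ)

/-- The parameters of the Euler factors of `L(E/K, s)`, `E : y² = x³ + a x + b`: at the primes
`v ∤ 2 (4a³ + 27b²)`, `α_{v,0} + α_{v,1} = a_v` and `α_{v,0} α_{v,1} = q_v`; at all primes the Euler factor
has real coefficients, and `|α_{v,j}| ≤ √q_v` (Hasse; at a prime of bad reduction the parameters are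
`a_v` and `0` with `a_v = 0, 1, -1`). -/
structure IsParameter (a b : ℤ) (α : HeightOneSpectrum (𝓞 K) → Fin 2 → ℂ) : Prop where
  sum : ∀ v : HeightOneSpectrum (𝓞 K), (2 * (4 * a ^ 3 + 27 * b ^ 2) : 𝓞 K) ∉ v.asIdeal →
    α v 0 + α v 1 = av a b v
  prod : ∀ v : HeightOneSpectrum (𝓞 K), (2 * (4 * a ^ 3 + 27 * b ^ 2) : 𝓞 K) ∉ v.asIdeal →
    α v 0 * α v 1 = q v
  real : ∀ v : HeightOneSpectrum (𝓞 K), (α v 0 + α v 1).im = 0 ∧ (α v 0 * α v 1).im = 0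
  norm : ∀ (v : HeightOneSpectrum (𝓞 K)) (j : Fin 2), ‖α v j‖ ≤ √(q v)

/-- `F` is the entire continuation of `L(E/K, s)`. -/
def IsContinuation (α : HeightOneSpectrum (𝓞 K) → Fin 2 → ℂ) (F : ℂ → ℂ) : Prop :=
  Differentiable ℂ F ∧ ∀ s : ℂ, 3 / 2 < s.re →
    F s = ∏' v : HeightOneSpectrum (𝓞 K), ∏ j : Fin 2, (1 - α v j * (q v : ℂ) ^ (-s))⁻¹

end field

/-- The functional equation: `Λ` is entire, `Λ(s) = A^(s/2) ((2π)^(-s) Γ(s))^n F(s)` for `Re s > 0`, and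
`Λ(s) = w Λ(2 - s)` for all `s`. -/
def IsCompleted (A : ℝ) (n : ℕ) (w : ℂ) (F Λ : ℂ → ℂ) : Prop :=
  Differentiable ℂ Λ ∧ (∀ s : ℂ, 0 < s.re → Λ s = (A : ℂ) ^ (s / 2) *
    (((2 * Real.pi : ℝ) : ℂ) ^ (-s) * Complex.Gamma s) ^ n * F s) ∧
    ∀ s : ℂ, Λ s = w * Λ (2 - s)

/-- `F` is of finite order. -/
def FiniteOrder (F : ℂ → ℂ) : Prop :=
  ∃ (C : ℝ) (k : ℕ), ∀ s : ℂ, ‖F s‖ ≤ Real.exp (C * (1 + ‖s‖) ^ k)

/-- `K ⊗ K` is the product of `K` and one further field (equivalently: the Galois group of the normal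
closure of `K` acts doubly transitively on the embeddings of `K`). -/
def DoublyTransitive (K : Type) [Field K] [NumberField K] : Prop :=
  ∃ (K₂ : Type) (_ : Field K₂) (_ : NumberField K₂), Nonempty ((K ⊗[ℚ] K) ≃ₐ[ℚ] (K × K₂))

/-! ### Modularity -/

/-- The coefficient `a_p` of `E : y² = x³ + a x + b` at a prime `p ∤ 2 (4a³ + 27b²)`: `p` minus the
number of pairs `(x, y)` modulo `p` with `y² ≡ x³ + a x + b (mod p)`. -/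
noncomputable def ap (a b : ℤ) (p : ℕ) : ℤ :=
  (p : ℤ) - (((Finset.range p ×ˢ Finset.range p).filter
    (fun xy : ℕ × ℕ => (p : ℤ) ∣ (xy.2 : ℤ) ^ 2 -
      ((xy.1 : ℤ) ^ 3 + a * (xy.1 : ℤ) + b))).card : ℤ)

/-- The `n`-th Fourier coefficient of `f`. -/
noncomputable def coef {N : ℕ} (f : CuspForm (Gamma0 N : Subgroup (GL (Fin 2) ℝ)) 2) (n : ℕ) : ℂ :=
  (qExpansion 1 f).coeff n

/-- `f ∈ S_2(Γ₀(N))` is the newform of the elliptic curve `E : y² = x³ + a x + b` of conductor `N` and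
root number `w`: the Fourier coefficients `c(n)` of `f` are real with `c(1) = 1`, they satisfy the
Hecke relations `c(mn) = c(m) c(n)` for coprime `m`, `n` and `c(p^(j+2)) = c(p) c(p^(j+1)) - p c(p^j)`
(without the last term if `p ∣ N`), `f(-1/(Nτ)) = -w N τ² f(τ)`, `c(p) = a_p(E)` for all primes
`p ∤ 2 (4a³ + 27b²)`, `|c(p)| ≤ 2 √p` for all `p ∤ N` (Hasse) and `c(p) = 0, 1, -1` for `p ∣ N`. -/
structure IsFormOf (a b : ℤ) (N : ℕ) (f : CuspForm (Gamma0 N : Subgroup (GL (Fin 2) ℝ)) 2) (w : ℝ) :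
    Prop where
  one : coef f 1 = 1
  real : ∀ n, (coef f n).im = 0
  mul : ∀ m n : ℕ, Nat.Coprime m n → coef f (m * n) = coef f m * coef f n
  pow : ∀ p j : ℕ, p.Prime → coef f (p ^ (j + 2)) = coef f p * coef f (p ^ (j + 1)) -
      (if p ∣ N then 0 else (p : ℂ) * coef f (p ^ j))
  sign : w = 1 ∨ w = -1
  fricke : ∀ τ τ' : ℍ, (τ' : ℂ) * ((N : ℂ) * (τ : ℂ)) = -1 →
    f τ' = -(w : ℂ) * (N : ℂ) * (τ : ℂ) ^ 2 * f τ
  points : ∀ p : ℕ, p.Prime → ¬ (p : ℤ) ∣ 2 * (4 * a ^ 3 + 27 * b ^ 2) → coef f p = (ap a b p : ℂ)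
  good : ∀ p : ℕ, p.Prime → ¬ p ∣ N → ‖coef f p‖ ≤ 2 * Real.sqrt p
  bad : ∀ p : ℕ, p.Prime → p ∣ N → coef f p = 0 ∨ coef f p = 1 ∨ coef f p = -1

/-! ### Sums over primes -/

/-- `λ_p = c(p) / √p`. -/
noncomputable def lam {N : ℕ} (f : CuspForm (Gamma0 N : Subgroup (GL (Fin 2) ℝ)) 2) (p : ℕ) : ℝ :=
  (coef f p).re / √(p : ℝ)

/-- `π_K(p)`: the number of the primes of `K` of norm `p`. -/
noncomputable def pi1 (K : Type) [Field K] [NumberField K] (p : ℕ) : ℕ :=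
  Nat.card {v : HeightOneSpectrum (𝓞 K) // Ideal.absNorm v.asIdeal = p}

/-- `W(X; δ, μ) = ∑_p X(p) cos(μ log p) (log p) p^(-1-δ)`. -/
noncomputable def W (X : ℕ → ℝ) (δ μ : ℝ) : ℝ :=
  ∑' p : Nat.Primes, X p * Real.cos (μ * Real.log ((p : ℕ) : ℝ)) *
    (Real.log ((p : ℕ) : ℝ) * ((p : ℕ) : ℝ) ^ (-(1 + δ)))

/-- `log |D_K|` -/
noncomputable def ld (K : Type) [Field K] [NumberField K] : ℝ := Real.log |(NumberField.discr K : ℝ)|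

/-! ### The packages -/

/-- Package NEAR: two zeros and the logarithmic derivative. -/
def S_NEAR : Prop := ∃ C : ℝ, 0 < C ∧ ∀ (F G : ℂ → ℂ) (γ B : ℝ) (ρ₁ ρ₂ : ℂ), Differentiable ℂ F →
  Differentiable ℂ G → (∀ s, F s = (s - ρ₁) * (s - ρ₂) * G s) → 1 ≤ B →
  (∀ s ∈ Metric.closedBall ((5 / 2 : ℂ) + γ * Complex.I) (5 / 2), ‖F s‖ ≤ Real.exp B) →
  (∀ s : ℂ, 3 / 2 < s.re → F s ≠ 0) → Real.exp (-B) ≤ ‖F ((5 / 2 : ℂ) + γ * Complex.I)‖ →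
  ‖ρ₁ - ((5 / 2 : ℂ) + γ * Complex.I)‖ ≤ 3 / 2 → ‖ρ₂ - ((5 / 2 : ℂ) + γ * Complex.I)‖ ≤ 3 / 2 →
  ∀ δ : ℝ, 0 < δ → δ ≤ 1 →
    ((3 / 2 + δ : ℝ) + γ * Complex.I - ρ₁ : ℂ)⁻¹.re + ((3 / 2 + δ : ℝ) + γ * Complex.I - ρ₂ : ℂ)⁻¹.re -
      C * B ≤ (logDeriv F ((3 / 2 + δ : ℝ) + γ * Complex.I)).re

/-- Package NEAR, one zero. -/
def S_NEAR1 : Prop := ∃ C : ℝ, 0 < C ∧ ∀ (F G : ℂ → ℂ) (γ B : ℝ) (ρ : ℂ), Differentiable ℂ F →
  Differentiable ℂ G → (∀ s, F s = (s - ρ) * G s) → 1 ≤ B →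
  (∀ s ∈ Metric.closedBall ((5 / 2 : ℂ) + γ * Complex.I) (5 / 2), ‖F s‖ ≤ Real.exp B) →
  (∀ s : ℂ, 3 / 2 < s.re → F s ≠ 0) → Real.exp (-B) ≤ ‖F ((5 / 2 : ℂ) + γ * Complex.I)‖ →
  ‖ρ - ((5 / 2 : ℂ) + γ * Complex.I)‖ ≤ 3 / 2 →
  ∀ δ : ℝ, 0 < δ → δ ≤ 1 →
    ((3 / 2 + δ : ℝ) + γ * Complex.I - ρ : ℂ)⁻¹.re - C * B ≤
      (logDeriv F ((3 / 2 + δ : ℝ) + γ * Complex.I)).re

/-- Package DED: Dedekind zeta functions, uniformly in the field.  (From the Hadamard product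
(`Pool.Agent.R362.Near`: `exists_xi`, `IsXi.logDeriv_eq`, `IsXi.sum_le` with the empty set of zeros):
`- Re ζ_K'/ζ_K(1 + δ + iμ) ≤ Re 1/(δ + iμ) + log|D_K| / 2 + O(n log(|μ| + 3))`; the prime powers and the
primes of degree `≥ 2` contribute `O(n)`.) -/
def S_DED : Prop := ∀ n : ℕ, ∃ C : ℝ, 0 < C ∧ ∀ (K : Type) [Field K] [NumberField K],
  Module.finrank ℚ K = n → ∀ δ μ : ℝ, 0 < δ → δ ≤ 1 →
    W (fun p => (pi1 K p : ℝ)) δ μ ≤ δ / (δ ^ 2 + μ ^ 2) + C * (ld K + Real.log (|μ| + 3))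

/-- Package ZETA: the same for `ζ(s)`. -/
def S_ZETA : Prop := ∃ C : ℝ, 0 < C ∧ ∀ δ μ : ℝ, 0 < δ → δ ≤ 1 →
    W (fun _ => 1) δ μ ≤ δ / (δ ^ 2 + μ ^ 2) + C * Real.log (|μ| + 3)

/-- Package RS: Rankin–Selberg at the edge.  (From `Pool.Agent.TH941` `rs_form`: `(s-1) ∑ c(n)² n^(-1-s)`
has a positive limit as `s → 1+`; so `φ(ε) = ∑_p λ_p² p^(-1-ε) = log(1/ε) + c + o(1)` — see
`Pool.Agent.Y722.RS` `self_le`, `LF`, `hasProd_CR` — and `φ` is convex, so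
`- φ'(δ) ≤ (φ(δ - θδ) - φ(δ)) / (θδ) ≤ (log(1/(1-θ)) + o(1)) / (θ δ)`.) -/
def S_RS : Prop := ∀ (a b : ℤ) (N : ℕ) [NeZero N]
  (f : CuspForm (Gamma0 N : Subgroup (GL (Fin 2) ℝ)) 2) (w : ℝ), 4 * a ^ 3 + 27 * b ^ 2 ≠ 0 →
  IsFormOf a b N f w → ∀ ε : ℝ, 0 < ε → ∃ δ₀ : ℝ, 0 < δ₀ ∧ ∀ δ : ℝ, 0 < δ → δ < δ₀ →
    W (fun p => lam f p ^ 2) δ 0 ≤ (1 + ε) / δ

/-- Package ALG: the tensor square.  (`R = 𝓞 K ⊗ 𝓞 K` is an order of `K × K₂`, of discriminant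
`D_K^(2n)`, contained in `M = 𝓞 K × 𝓞 K₂`, of discriminant `D_K D_{K₂}`; `D(R) = [M : R]² D(M)`; if
`p ∤ D_K` then `p ∤ [M : R]` and the homomorphisms `M → ℤ/p` and `R → ℤ/p` correspond.) -/
def S_ALG : Prop := ∀ (K K₂ : Type) [Field K] [NumberField K] [Field K₂] [NumberField K₂],
  Nonempty ((K ⊗[ℚ] K) ≃ₐ[ℚ] (K × K₂)) →
    Module.finrank ℚ K₂ + Module.finrank ℚ K = Module.finrank ℚ K ^ 2 ∧
    ld K₂ ≤ 2 * Module.finrank ℚ K * ld K ∧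
    ∀ p : ℕ, p.Prime → ¬ (p : ℤ) ∣ NumberField.discr K → pi1 K p ^ 2 ≤ pi1 K p + pi1 K₂ p

/-- Package PI. -/
def S_PI : Prop := ∀ (K : Type) [Field K] [NumberField K] (p : ℕ), p.Prime →
  pi1 K p ≤ Module.finrank ℚ K

/-- Package EUL: the Euler product of `L(E/K, s)`.  (The prime powers, the primes of degree `≥ 2` and
the finitely many primes `p ∣ 2 (4a³ + 27b²)` contribute `O(n)` to the last inequality.) -/
def S_EUL : Prop := ∀ (a b : ℤ) (N : ℕ) [NeZero N]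
  (f : CuspForm (Gamma0 N : Subgroup (GL (Fin 2) ℝ)) 2) (w : ℝ), 4 * a ^ 3 + 27 * b ^ 2 ≠ 0 →
  IsFormOf a b N f w → ∀ n : ℕ, ∃ C : ℝ, 0 < C ∧ ∀ (K : Type) [Field K] [NumberField K],
  Module.finrank ℚ K = n → ∀ (α : HeightOneSpectrum (𝓞 K) → Fin 2 → ℂ) (F : ℂ → ℂ),
    IsParameter a b α → IsContinuation α F →
    (∀ s : ℂ, 3 / 2 < s.re → F s ≠ 0) ∧ (∀ s : ℂ, F (conj s) = conj (F s)) ∧
    (∀ s : ℂ, 2 ≤ s.re → ‖F s‖ ≤ Real.exp C ∧ Real.exp (-C) ≤ ‖F s‖) ∧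
    ∀ δ μ : ℝ, 0 < δ → δ ≤ 1 →
      |(logDeriv F ((3 / 2 + δ : ℝ) + μ * Complex.I)).re + W (fun p => lam f p * pi1 K p) δ μ| ≤ C

/-- Package LF: `L(f, s)` near the edge.  (Classical zero-free region for `L(f, s)`: the positivity of
`∑_p (λ_p + 2 cos(γ log p))² (log p) p^(-1-δ)` with S_RS, S_ZETA, S_NEAR and S_NEAR1, then the bound for
`L'/L` by the local formula `Pool.Agent.H437R2.landau`.) -/
def S_LF : Prop := ∀ (a b : ℤ) (N : ℕ) [NeZero N]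
  (f : CuspForm (Gamma0 N : Subgroup (GL (Fin 2) ℝ)) 2) (w : ℝ), 4 * a ^ 3 + 27 * b ^ 2 ≠ 0 →
  IsFormOf a b N f w → ∃ C : ℝ, 0 < C ∧ ∀ δ μ : ℝ, 0 < δ → δ ≤ 1 →
    -(C * Real.log (|μ| + 3)) ≤ W (lam f) δ μ

/-- Package LCONT: the entire continuation of `L(f, s)`, with polynomial growth. -/
def S_LCONT : Prop := ∀ (a b : ℤ) (N : ℕ) [NeZero N]
  (f : CuspForm (Gamma0 N : Subgroup (GL (Fin 2) ℝ)) 2) (w : ℝ), 4 * a ^ 3 + 27 * b ^ 2 ≠ 0 →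
  IsFormOf a b N f w → ∃ (L : ℂ → ℂ) (C : ℝ), 0 < C ∧ Differentiable ℂ L ∧
    (∀ s : ℂ, 3 / 2 < s.re → L s ≠ 0) ∧ (∀ s : ℂ, L (conj s) = conj (L s)) ∧
    (∀ s : ℂ, 2 ≤ s.re → Real.exp (-C) ≤ ‖L s‖) ∧
    (∀ s : ℂ, 0 ≤ s.re → s.re ≤ 5 → ‖L s‖ ≤ Real.exp (C * Real.log (|s.im| + 3))) ∧
    ∀ δ μ : ℝ, 0 < δ → δ ≤ 1 →
      |(logDeriv L ((3 / 2 + δ : ℝ) + μ * Complex.I)).re + W (lam f) δ μ| ≤ C

/-- Package LREG: the region for `L(f, s)` from the other packages. -/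
def S_LREG : Prop := S_NEAR → S_NEAR1 → S_ZETA → S_RS → S_LCONT → S_LF

/-- Package FE: the growth in the strip from the functional equation (Phragmén–Lindelöf in the strip
`0 ≤ Re s ≤ 2`; `|Γ(2 - it) / Γ(it)| = |t| |1 - it|`). -/
def S_FE : Prop := ∀ (n : ℕ) (C₀ : ℝ), ∃ C : ℝ, 0 < C ∧ ∀ (A : ℝ) (w : ℂ) (F Λ : ℂ → ℂ), 1 ≤ A →
  (w = 1 ∨ w = -1) → Differentiable ℂ F → FiniteOrder F → IsCompleted A n w F Λ →
  (∀ s : ℂ, 2 ≤ s.re → ‖F s‖ ≤ Real.exp C₀) →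
  ∀ s : ℂ, 0 ≤ s.re → s.re ≤ 5 → ‖F s‖ ≤ Real.exp (C * (Real.log A + Real.log (|s.im| + 3)))

/-! ### Finer packages for DED, ALG, EUL -/

/-- the weight of the prime `v` and the exponent `k + 1` -/
noncomputable def wt {K : Type} [Field K] [NumberField K] (δ : ℝ) (x : HeightOneSpectrum (𝓞 K) × ℕ) : ℝ :=
  Real.log (q x.1) * q x.1 ^ (-((x.2 + 1) * (1 + δ)))

/-- Package RED: reduction of sums over primes `v` of `K` and exponents to sums over rational primes: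
the prime powers and the primes of degree at least two contribute `O(n)`. -/
def S_RED : Prop := ∀ n : ℕ, ∃ C : ℝ, 0 < C ∧ ∀ (K : Type) [Field K] [NumberField K],
  Module.finrank ℚ K = n → ∀ c : HeightOneSpectrum (𝓞 K) × ℕ → ℝ, (∀ x, |c x| ≤ 2) →
  ∀ X : ℕ → ℝ, (∀ p : ℕ, p.Prime → |X p| ≤ 2) → ∀ D : ℕ, D ≠ 0 →
    (∀ (v : HeightOneSpectrum (𝓞 K)) (p : ℕ), p.Prime → Ideal.absNorm v.asIdeal = p → ¬ p ∣ D →
      c (v, 0) = X p) →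
    ∀ δ : ℝ, 0 < δ → δ ≤ 1 → Summable (fun x => c x * wt δ x) ∧
      |(∑' x, c x * wt δ x) - ∑' p : Nat.Primes, (pi1 K p : ℝ) * X p *
        (Real.log ((p : ℕ) : ℝ) * ((p : ℕ) : ℝ) ^ (-(1 + δ)))| ≤ C * (1 + Real.log D)

/-- Package DEDA: the Hadamard bound for `ζ_K`, as a sum over primes of `K` and exponents.  (From
`Pool.Agent.R362.Near`: `exists_xi`, `IsXi.logDeriv_eq`, `IsXi.sum_le` with the empty set of zeros,
`LI_zeta`, at `s = 1 + δ + iμ`: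
`- Re ζ_K'/ζ_K(s) ≤ Re 1/s + Re 1/(s-1) + log|D_K|/2 + O(n log(|μ| + 3))`.) -/
def S_DEDA : Prop := ∀ n : ℕ, ∃ C : ℝ, 0 < C ∧ ∀ (K : Type) [Field K] [NumberField K],
  Module.finrank ℚ K = n → ∀ δ μ : ℝ, 0 < δ → δ ≤ 1 →
    (∑' x : HeightOneSpectrum (𝓞 K) × ℕ,
      Real.cos (μ * ((x.2 + 1) * Real.log (q x.1))) * wt δ x) ≤
        δ / (δ ^ 2 + μ ^ 2) + C * (ld K + Real.log (|μ| + 3))

/-- Package IDX: the index of `R = 𝓞 K ⊗ 𝓞 K` in `M = 𝓞 K × 𝓞 K₂`. (`D(R) = D_K^(2n)`, `D(M) = D_K D_{K₂}`,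
`m` is the determinant of the base change; the adjugate matrix gives `m M ⊆ R`.) -/
def S_IDX : Prop := ∀ (K K₂ : Type) [Field K] [NumberField K] [Field K₂] [NumberField K₂]
  (e : (K ⊗[ℚ] K) ≃ₐ[ℚ] (K × K₂)),
    Module.finrank ℚ K₂ + Module.finrank ℚ K = Module.finrank ℚ K ^ 2 ∧
    ∃ m : ℤ, m ≠ 0 ∧
      NumberField.discr K ^ (2 * Module.finrank ℚ K) =
        m ^ 2 * (NumberField.discr K * NumberField.discr K₂) ∧
      ∀ (x : 𝓞 K) (y : 𝓞 K₂), ∃ l : List (𝓞 K × 𝓞 K),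
        e ((l.map fun u => (u.1 : K) ⊗ₜ[ℚ] (u.2 : K)).sum) = (m : ℤ) • ((x : K), (y : K₂))

/-- Package CNT: counting homomorphisms to `ℤ/p`. (A homomorphism `φ : R → ℤ/p` extends uniquely to `M`:
`ψ(x) = φ(m x)/m`; and `ψ` factors through `𝓞 K` or `𝓞 K₂`.) -/
def S_CNT : Prop := S_IDX → S_ALG

/-- Package LDF: the Euler product of `L(E/K, s)`. -/
def S_LDF : Prop := ∀ n : ℕ, ∃ C : ℝ, 0 < C ∧ ∀ (K : Type) [Field K] [NumberField K],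
  Module.finrank ℚ K = n → ∀ (a b : ℤ) (α : HeightOneSpectrum (𝓞 K) → Fin 2 → ℂ) (F : ℂ → ℂ),
    IsParameter a b α → IsContinuation α F →
    (∀ s : ℂ, 3 / 2 < s.re → F s ≠ 0) ∧ (∀ s : ℂ, F (conj s) = conj (F s)) ∧
    (∀ s : ℂ, 2 ≤ s.re → ‖F s‖ ≤ Real.exp C ∧ Real.exp (-C) ≤ ‖F s‖) ∧
    ∀ δ μ : ℝ, 0 < δ → δ ≤ 1 →
      (logDeriv F ((3 / 2 + δ : ℝ) + μ * Complex.I)).re =
        -∑' x : HeightOneSpectrum (𝓞 K) × ℕ,
          (((∑ j, α x.1 j ^ (x.2 + 1)).re / √(q x.1) ^ (x.2 + 1)) *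
            Real.cos (μ * ((x.2 + 1) * Real.log (q x.1)))) * wt δ x

/-- Package AV: `a_v = a_p` at the primes `v` of degree one. -/
def S_AV : Prop := ∀ (K : Type) [Field K] [NumberField K] (a b : ℤ) (v : HeightOneSpectrum (𝓞 K))
  (p : ℕ), p.Prime → Ideal.absNorm v.asIdeal = p →
    av a b v = ap a b p ∧ (¬ (p : ℤ) ∣ 2 * (4 * a ^ 3 + 27 * b ^ 2) →
      (2 * (4 * a ^ 3 + 27 * b ^ 2) : 𝓞 K) ∉ v.asIdeal)

/-- Assembly of DED and EUL. -/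
def S_DED2 : Prop := S_RED → S_DEDA → S_DED
def S_EUL2 : Prop := S_RED → S_LDF → S_AV → S_EUL
/-- Package ZETA2 (`pi1 ℚ p = 1`, `ld ℚ = 0`). -/
def S_ZETA2 : Prop := S_DED → S_ZETA

/-! ### The goal -/

/-- In `S` the function `F` has at most one zero, and this is real and simple. -/
def AtMostOneReal (F : ℂ → ℂ) (S : Set ℂ) : Prop :=
  ∀ z ∈ S, F z = 0 → z.im = 0 ∧ deriv F z ≠ 0 ∧ ∀ z' ∈ S, F z' = 0 → z' = z

/-- The theorem. -/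
def Goal : Prop := ∀ (a b : ℤ) (N : ℕ) [NeZero N]
  (f : CuspForm (Gamma0 N : Subgroup (GL (Fin 2) ℝ)) 2) (w : ℝ), 4 * a ^ 3 + 27 * b ^ 2 ≠ 0 →
  IsFormOf a b N f w → ∀ n : ℕ, ∃ c : ℝ, 0 < c ∧ ∀ (K : Type) [Field K] [NumberField K],
  Module.finrank ℚ K = n → DoublyTransitive K →
  ∀ (α : HeightOneSpectrum (𝓞 K) → Fin 2 → ℂ) (F : ℂ → ℂ), IsParameter a b α → IsContinuation α F →
    (∀ T B : ℝ, 0 ≤ T → 1 ≤ B →
      (∀ s : ℂ, |s.im| ≤ T + 3 → |s.re - 5 / 2| ≤ 5 / 2 → ‖F s‖ ≤ Real.exp B) →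
      AtMostOneReal F {s : ℂ | |s.im| ≤ T ∧
        3 / 2 - c / (B + Real.log |(NumberField.discr K : ℝ)| + Real.log (T + 3)) ≤ s.re}) ∧
    ∀ (A : ℝ) (W : ℂ) (Λ : ℂ → ℂ), 1 ≤ A → (W = 1 ∨ W = -1) → FiniteOrder F →
      IsCompleted A n W F Λ →
      AtMostOneReal F {s : ℂ |
        3 / 2 - c / (Real.log A + Real.log |(NumberField.discr K : ℝ)| + Real.log (|s.im| + 3)) ≤ s.re}

end Pool.Agent.U309.ZF
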