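import Pool.Agent.U309.ZF.Stm2

/-!
# Project ZF, third part: at most one exceptional field

`K₁`, `K₂` have doubly transitive groups and `K₁ ⊗ K₂` is a field `L`.  Then not both `L(E/K₁, s)` and
`L(E/K₂, s)` have a real zero near the edge, without any hypothesis on the distribution of the `λ_p`.

Proof.  Let `β_i = 3/2 - η_i` be the zeros, `η_i ≤ κ/ℒ`.  From `|λ| ≤ 2` and the zero one has
`W(π_i; δ₂) ≥ (1/2 - small)/δ₂` for `δ₂ = κ₂/ℒ`, so `S_i(δ₂) < 2/(3 δ₂)` in the notation of `S_DL`, and so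
`S_i(δ₁) ≤ 9 S_i(δ₂) ≤ 5/δ₂ = 1/(100 δ₁)` for `δ₁ = δ₂/500`: `W(π_i; δ₁) ≥ (1 - small)/δ₁`.  Then the sum of
`(λ + π₁ + π₂ - 2)²` with `δ = δ₁` is at most `(1 + 2·2 + 2 + 4 - 4 - 8 + small)/δ₁ = (-1 + small)/δ₁`.
-/

set_option autoImplicit false

open NumberField IsDedekindDomain UpperHalfPlane MatrixGroups CongruenceSubgroup Filter Topology
open scoped TensorProduct

namespace Pool.Agent.U309.ZF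

/-- Package HK: polynomials with zeros in the closed left half-plane.  (The `Q N` have no zeros in the ball
of radius `δ₂/2` for large `N`, and `Re 1/(δ₁ + u) ≤ 9 Re 1/(δ₂ + u)` if `Re u ≥ 0`, `|u| ≥ δ₂/2`.) -/
def S_HK : Prop := ∀ (g : ℂ → ℂ) (Q : ℕ → Polynomial ℂ), (∀ N z, (Q N).IsRoot z → z.re ≤ 0) →
  TendstoLocallyUniformly (fun (N : ℕ) (z : ℂ) => (Q N).eval z) g atTop →
  (∀ z : ℂ, 0 < z.re → g z ≠ 0) → ∀ δ₁ δ₂ : ℝ, 0 < δ₁ → δ₁ ≤ δ₂ →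
  (∀ z : ℂ, ‖z‖ ≤ δ₂ / 2 → g z ≠ 0) →
    (logDeriv g (δ₁ : ℂ)).re ≤ 9 * (logDeriv g (δ₂ : ℂ)).re

/-- Package DLX: the Hadamard formula for `ζ_K` at the real points `1 + δ`, both inequalities.  `S δ` is
`Re ξ_K'/ξ_K(1 + δ)`, the sum of `Re 1/(1 + δ - ρ)` over the nontrivial zeros of `ζ_K`. -/
def S_DLX : Prop := ∀ n : ℕ, ∃ C : ℝ, 0 < C ∧ ∀ (K : Type) [Field K] [NumberField K],
  Module.finrank ℚ K = n → ∃ S : ℝ → ℝ, (∀ δ : ℝ, 0 < δ → 0 ≤ S δ) ∧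
    (∀ δ : ℝ, 0 < δ → δ ≤ 1 →
      |(∑' x : HeightOneSpectrum (𝓞 K) × ℕ, wt δ x) - (1 / δ - S δ)| ≤ C * (ld K + 1)) ∧
    ∀ δ₁ δ₂ : ℝ, 0 < δ₁ → δ₁ ≤ δ₂ → δ₂ ≤ 1 → 2 / (3 * δ₂) ≤ S δ₂ ∨ S δ₁ ≤ 9 * S δ₂

def S_DLX2 : Prop := S_HK → S_DLX

/-- The same for the sums over primes. -/
def S_DL : Prop := ∀ n : ℕ, ∃ C : ℝ, 0 < C ∧ ∀ (K : Type) [Field K] [NumberField K],
  Module.finrank ℚ K = n → ∃ S : ℝ → ℝ, (∀ δ : ℝ, 0 < δ → 0 ≤ S δ) ∧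
    (∀ δ : ℝ, 0 < δ → δ ≤ 1 → |W (fun p => (pi1 K p : ℝ)) δ 0 - (1 / δ - S δ)| ≤ C * (ld K + 1)) ∧
    ∀ δ₁ δ₂ : ℝ, 0 < δ₁ → δ₁ ≤ δ₂ → δ₂ ≤ 1 → 2 / (3 * δ₂) ≤ S δ₂ ∨ S δ₁ ≤ 9 * S δ₂

/-- Package DLW. -/
def S_DLW : Prop := S_RED → S_DLX → S_DL

/-- Package IDX3: the index of `R = 𝓞 K₁ ⊗ 𝓞 K₂` in `𝓞 L`. -/
def S_IDX3 : Prop := ∀ (K₁ K₂ L : Type) [Field K₁] [NumberField K₁] [Field K₂] [NumberField K₂]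
  [Field L] [NumberField L] (e : (K₁ ⊗[ℚ] K₂) ≃ₐ[ℚ] L),
    Module.finrank ℚ L = Module.finrank ℚ K₁ * Module.finrank ℚ K₂ ∧
    ∃ m : ℤ, m ≠ 0 ∧
      NumberField.discr K₁ ^ Module.finrank ℚ K₂ * NumberField.discr K₂ ^ Module.finrank ℚ K₁ =
        m ^ 2 * NumberField.discr L ∧
      ∀ x : 𝓞 L, ∃ l : List (𝓞 K₁ × 𝓞 K₂),
        e ((l.map fun u => (u.1 : K₁) ⊗ₜ[ℚ] (u.2 : K₂)).sum) = (m : ℤ) • (x : L)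

/-- Package ALG3: the tensor product. -/
def S_ALG3 : Prop := ∀ (K₁ K₂ L : Type) [Field K₁] [NumberField K₁] [Field K₂] [NumberField K₂]
  [Field L] [NumberField L], Nonempty ((K₁ ⊗[ℚ] K₂) ≃ₐ[ℚ] L) →
    Module.finrank ℚ L = Module.finrank ℚ K₁ * Module.finrank ℚ K₂ ∧
    ld L ≤ Module.finrank ℚ K₂ * ld K₁ + Module.finrank ℚ K₁ * ld K₂ ∧
    ∀ p : ℕ, p.Prime → ¬ (p : ℤ) ∣ NumberField.discr K₁ → ¬ (p : ℤ) ∣ NumberField.discr K₂ →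
      pi1 K₁ p * pi1 K₂ p ≤ pi1 L p

def S_CNT3 : Prop := S_IDX3 → S_ALG3

/-- The core of the third part. -/
def PageCore : Prop := ∀ C1 : ℝ, 0 < C1 → ∀ (a b : ℤ) (N : ℕ) [NeZero N]
  (f : CuspForm (Gamma0 N : Subgroup (GL (Fin 2) ℝ)) 2) (w : ℝ), 4 * a ^ 3 + 27 * b ^ 2 ≠ 0 →
  IsFormOf a b N f w → ∀ n : ℕ, ∃ κ : ℝ, 0 < κ ∧ ∀ (K₁ K₂ L : Type) [Field K₁] [NumberField K₁]
    [Field K₂] [NumberField K₂] [Field L] [NumberField L],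
    Module.finrank ℚ K₁ = n → Module.finrank ℚ K₂ = n → DoublyTransitive K₁ → DoublyTransitive K₂ →
    Nonempty ((K₁ ⊗[ℚ] K₂) ≃ₐ[ℚ] L) →
    ∀ (α₁ : HeightOneSpectrum (𝓞 K₁) → Fin 2 → ℂ) (F₁ : ℂ → ℂ)
      (α₂ : HeightOneSpectrum (𝓞 K₂) → Fin 2 → ℂ) (F₂ : ℂ → ℂ),
      IsParameter a b α₁ → IsContinuation α₁ F₁ → IsParameter a b α₂ → IsContinuation α₂ F₂ →
      ∀ B η₁ η₂ : ℝ, 1 ≤ B → 0 ≤ η₁ → 0 ≤ η₂ → η₁ * (B + ld K₁ + ld K₂) ≤ κ →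
        η₂ * (B + ld K₁ + ld K₂) ≤ κ →
        (∀ δ : ℝ, 0 < δ → δ ≤ 1 → 1 / (δ + η₁) - C1 * B ≤
          (logDeriv F₁ ((3 / 2 + δ : ℝ) + (0 : ℝ) * Complex.I)).re) →
        (∀ δ : ℝ, 0 < δ → δ ≤ 1 → 1 / (δ + η₂) - C1 * B ≤
          (logDeriv F₂ ((3 / 2 + δ : ℝ) + (0 : ℝ) * Complex.I)).re) → False

/-- Package CORE3: the inequality. -/
def S_CORE3 : Prop := S_DED → S_ZETA → S_RS → S_ALG → S_ALG3 → S_PI → S_EUL → S_LF → S_DL → PageCore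

end Pool.Agent.U309.ZF
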