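import Pool.Agent.U309.ZF.Stm3
import Pool.Agent.W97.TW.Eleven
import Pool.Agent.TH940.Inst

/-!
# Project ZF, fourth part: `L(f, 3/2) ≠ 0`

The third part uses that `L(f, s)` has no zero at the point `3/2` of the edge, a classical theorem; for
`X_0(11)` and `X_0(14)` it follows from the positivity of `f(iy)`.
-/

set_option autoImplicit false

open NumberField IsDedekindDomain UpperHalfPlane MatrixGroups CongruenceSubgroup Filter Topology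
open scoped TensorProduct

namespace Pool.Agent.U309.ZF

/-- `L` is the entire continuation of the Dirichlet series of `f`. -/
def IsL {N : ℕ} (f : CuspForm (Gamma0 N : Subgroup (GL (Fin 2) ℝ)) 2) (L : ℂ → ℂ) : Prop :=
  Differentiable ℂ L ∧ ∀ s : ℂ, 3 / 2 < s.re → HasSum (fun n : ℕ => coef f n * (n : ℂ) ^ (-s)) (L s)

/-- The logarithmic derivative of `L(f, s)` is bounded from above near `3/2`. -/
def EdgeOK {N : ℕ} (f : CuspForm (Gamma0 N : Subgroup (GL (Fin 2) ℝ)) 2) : Prop :=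
  ∃ C : ℝ, 0 < C ∧ ∀ δ : ℝ, 0 < δ → δ ≤ 1 → -C ≤ W (lam f) δ 0

/-- Package LC2: the continuation of the Dirichlet series of a newform. -/
def S_LC2 : Prop := ∀ (a b : ℤ) (N : ℕ) [NeZero N]
  (f : CuspForm (Gamma0 N : Subgroup (GL (Fin 2) ℝ)) 2) (w : ℝ), 4 * a ^ 3 + 27 * b ^ 2 ≠ 0 →
  IsFormOf a b N f w → ∃ (L : ℂ → ℂ) (C : ℝ), 0 < C ∧ IsL f L ∧
    (∀ s : ℂ, 3 / 2 < s.re → L s ≠ 0) ∧
    (∀ x : ℝ, 3 / 2 < x → Summable fun n : ℕ => ‖coef f n‖ * (n : ℝ) ^ (-x)) ∧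
    ∀ δ : ℝ, 0 < δ → δ ≤ 1 →
      |(logDeriv L ((3 / 2 + δ : ℝ) : ℂ)).re + W (lam f) δ 0| ≤ C

/-- Package EDGE. -/
def S_EDGE : Prop := S_LC2 → ∀ (a b : ℤ) (N : ℕ) [NeZero N]
  (f : CuspForm (Gamma0 N : Subgroup (GL (Fin 2) ℝ)) 2) (w : ℝ), 4 * a ^ 3 + 27 * b ^ 2 ≠ 0 →
  IsFormOf a b N f w → (∀ L : ℂ → ℂ, IsL f L → L (3 / 2) ≠ 0) → EdgeOK f

/-- Package POS: positivity on the imaginary axis.  (`(2π)^(-x) Γ(x) L(x) = ∫_0^∞ f(iy) y^(x-1) dy` for real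
`x > 3/2`, which is at least `∫_1^2 f(iy) y^(x-1) dy`; let `x → 3/2`.) -/
def S_POS : Prop := ∀ (N : ℕ) [NeZero N]
  (f : CuspForm (Gamma0 N : Subgroup (GL (Fin 2) ℝ)) 2),
  (∀ n, (coef f n).im = 0) →
  (∀ x : ℝ, 3 / 2 < x → Summable fun n : ℕ => ‖coef f n‖ * (n : ℝ) ^ (-x)) →
  (∀ τ : ℍ, (τ : ℂ).re = 0 → 0 < (f τ).re) → ∀ L : ℂ → ℂ, IsL f L → L (3 / 2) ≠ 0

/-- Package ETA11: `f(iy) > 0` for the newform `f(τ) = η(τ)² η(11τ)²` of `X_0(11)`. -/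
def S_ETA11 : Prop := ∀ τ : ℍ, (τ : ℂ).re = 0 → 0 < (Pool.Agent.W97.TW.f11 τ).re

/-- Package ETA14: the same for `X_0(14)`. -/
def S_ETA14 : Prop := ∀ τ : ℍ, (τ : ℂ).re = 0 → 0 < (Pool.Agent.W97.MT.form14 τ).re

/-- The core of the third part, with `L(f, 3/2) ≠ 0`. -/
def PageCore4 : Prop := ∀ C1 : ℝ, 0 < C1 → ∀ (a b : ℤ) (N : ℕ) [NeZero N]
  (f : CuspForm (Gamma0 N : Subgroup (GL (Fin 2) ℝ)) 2) (w : ℝ), 4 * a ^ 3 + 27 * b ^ 2 ≠ 0 →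
  IsFormOf a b N f w → EdgeOK f → ∀ n : ℕ, ∃ κ : ℝ, 0 < κ ∧ ∀ (K₁ K₂ L : Type) [Field K₁] [NumberField K₁]
    [Field K₂] [NumberField K₂] [Field L] [NumberField L],
    Module.finrank ℚ K₁ = n → Module.finrank ℚ K₂ = n → DoublyTransitive K₁ → DoublyTransitive K₂ →
    Nonempty ((K₁ ⊗[ℚ] K₂) ≃ₐ[ℚ] L) →
    ∀ (α₁ : HeightOneSpectrum (𝓞 K₁) → Fin 2 → ℂ) (F₁ : ℂ → ℂ)
      (α₂ : HeightOneSpectrum (𝓞 K₂) → Fin 2 → ℂ) (F₂ : ℂ → ℂ),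
      IsParameter a b α₁ → IsContinuation α₁ F₁ → IsParameter a b α₂ → IsContinuation α₂ F₂ →
      ∀ B η₁ η₂ : ℝ, 1 ≤ B → 0 ≤ η₁ → 0 ≤ η₂ → η₁ * (B + ld K₁ + ld K₂) ≤ κ →
        η₂ * (B + ld K₁ + ld K₂) ≤ κ →
        (∀ δ : ℝ, 0 < δ → δ ≤ 1 → 1 / (δ + η₁) - C1 * B ≤
          (logDeriv F₁ ((3 / 2 + δ : ℝ) + (0 : ℝ) * Complex.I)).re) →
        (∀ δ : ℝ, 0 < δ → δ ≤ 1 → 1 / (δ + η₂) - C1 * B ≤
          (logDeriv F₂ ((3 / 2 + δ : ℝ) + (0 : ℝ) * Complex.I)).re) → False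

/-- Package CORE4: the inequality. -/
def S_CORE4 : Prop := S_DED → S_ZETA → S_RS → S_ALG → S_ALG3 → S_PI → S_EUL → S_DL → PageCore4

end Pool.Agent.U309.ZF
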