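import Pool.Agent.U309.ZF.Stm

/-!
# Project ZF, second part: no exceptional zero

With the distribution of the `λ_p` (Sato–Tate for a curve without complex multiplication, Hecke/Deuring
for a curve with complex multiplication) the possible real zero is excluded too.
-/

set_option autoImplicit false

open Filter Topology

namespace Pool.Agent.U309.ZF

/-- The mean of `h(p)` over the primes `p ≤ x`. -/
noncomputable def primeMean (h : ℕ → ℝ) (x : ℕ) : ℝ :=
  (∑ p ∈ (Finset.range (x + 1)).filter Nat.Prime, h p) /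
    (((Finset.range (x + 1)).filter Nat.Prime).card : ℝ)

/-- The Sato–Tate law for `E : y² = x³ + a x + b` (a theorem for every `E` without complex
multiplication): for every continuous `g` the mean of `g(a_p / √p)` over the primes `p ≤ x` tends to
`(1/2π) ∫_{-2}^{2} g(t) √(4 - t²) dt`. -/
def SatoTate (a b : ℤ) : Prop := ∀ g : ℝ → ℝ, Continuous g →
  Tendsto (primeMean fun p => g ((ap a b p : ℝ) / √(p : ℝ))) atTop
    (𝓝 ((2 * Real.pi)⁻¹ * ∫ t in (-2 : ℝ)..2, g t * √(4 - t ^ 2)))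

/-- The law for `E : y² = x³ + a x + b` with complex multiplication (a theorem of Hecke and Deuring): for
every continuous `g` the mean of `g(a_p / √p)` over the primes `p ≤ x` tends to
`g(0)/2 + (1/2π) ∫_0^π g(2 cos θ) dθ`. -/
def CMLaw (a b : ℤ) : Prop := ∀ g : ℝ → ℝ, Continuous g →
  Tendsto (primeMean fun p => g ((ap a b p : ℝ) / √(p : ℝ))) atTop
    (𝓝 (g 0 / 2 + (2 * Real.pi)⁻¹ * ∫ θ in (0 : ℝ)..Real.pi, g (2 * Real.cos θ)))

/-- Package ABEL: from the mean over `p ≤ x` to the weighted sums.  (Subtract `L`; `δ W(1; δ, 0) → 1` from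
`-ζ'/ζ(1 + δ) = 1/δ + O(1)`; Abel summation and Chebyshev's bound `π(x) ≤ C x / log x`.) -/
def S_ABEL : Prop := ∀ (h : ℕ → ℝ) (L M : ℝ), (∀ p : ℕ, p.Prime → |h p| ≤ M) →
  Tendsto (primeMean h) atTop (𝓝 L) →
  Tendsto (fun δ : ℝ => δ * W h δ 0) (𝓝[>] 0) (𝓝 L)

/-- the piecewise linear function `max_{k ≥ 0} (-2kt - (2/3) k (k-1))` on `[-2, 2]` -/
noncomputable def gg (t : ℝ) : ℝ := max (max 0 (-2 * t)) (max (-4 * t - 4 / 3) (-6 * t - 4))

/-- Package INTST (the value is `1.2305...`).  (E.g. for `a = 0, 2/3, 4/3` the integrals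
`∫_a^2 (2u - 2a) √(4 - u²) du`, `u = -t`, from the primitive `-(4-u²)^(3/2)/3` of `u √(4-u²)` and the
bound `√(4-u²) ≤ (4 - u² + s²)/(2s)`; or polynomial majorants.) -/
def S_INTST : Prop := (2 * Real.pi)⁻¹ * ∫ t in (-2 : ℝ)..2, gg t * √(4 - t ^ 2) ≤ 1.3

/-- Package INTCM (the value is `1.0931...`). -/
def S_INTCM : Prop := gg 0 / 2 + (2 * Real.pi)⁻¹ * ∫ θ in (0 : ℝ)..Real.pi, gg (2 * Real.cos θ) ≤ 1.3

end Pool.Agent.U309.ZF
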