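import Pool.Agent.U309.ZF.Fin2
import Pool.Agent.U61.ZF.RED
import Pool.Agent.U750.ZF.DEDA
import Pool.Agent.U433.ZF.DED2
import Pool.Agent.U111.ZF.ZETA2
import Pool.Agent.U263.ZF.RS
import Pool.Agent.U109.ZF.IDX
import Pool.Agent.U891.ZF.CNT
import Pool.Agent.U395.ZF.PI
import Pool.Agent.U643.ZF.LDF
import Pool.Agent.U402.ZF.AV
import Pool.Agent.U796.ZF.EUL2
import Pool.Agent.U901.ZF.LCONT
import Pool.Agent.U899.ZF.LREG2
import Pool.Agent.U165.ZF.FE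
import Pool.Agent.U333.ZF.ABEL
import Pool.Agent.U278.ZF.INTST
import Pool.Agent.U27.ZF.INTCM

set_option autoImplicit false

namespace Pool.Agent.U309.ZF

theorem t_DED : S_DED := Pool.Agent.U433.ZF.t_DED2 Pool.Agent.U61.ZF.t_RED Pool.Agent.U750.ZF.t_DEDA

theorem t_ZETA : S_ZETA := Pool.Agent.U111.ZF.t_ZETA2 t_DED

theorem t_ALG : S_ALG := Pool.Agent.U891.ZF.t_CNT Pool.Agent.U109.ZF.t_IDX

theorem t_EUL : S_EUL :=
  Pool.Agent.U796.ZF.t_EUL2 Pool.Agent.U61.ZF.t_RED Pool.Agent.U643.ZF.t_LDF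
    Pool.Agent.U402.ZF.AV.t_AV

theorem t_LF2 : S_LF2 := fun a b N _ f w hab hf =>
  Pool.Agent.U899.ZF2.t_LREG2 t_ZETA Pool.Agent.U263.ZF.RS.t_RS Pool.Agent.U901.ZF.t_LCONT a b N f w
    hab hf

theorem main : Goal₂ :=
  t_GOAL2 t_DED t_ZETA Pool.Agent.U263.ZF.RS.t_RS t_ALG Pool.Agent.U395.ZF.t_PI t_EUL t_LF2
    Pool.Agent.U165.ZF.FE.t_FE Pool.Agent.U333.ZF.t_ABEL Pool.Agent.U278.ZF.t_INTST
    Pool.Agent.U27.ZF.t_INTCM

end Pool.Agent.U309.ZF
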