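import Pool.Agent.U309.ZF.Tw
import Pool.Agent.U309.ZF.Stm4

/-! The newforms of `X_0(11)` and `X_0(14)`. -/

set_option autoImplicit false

open UpperHalfPlane MatrixGroups CongruenceSubgroup

namespace Pool.Agent.U309.ZF

theorem base11 : ∃ w : ℝ, IsFormOf (-13392) (-1080432) 11 Pool.Agent.W97.TW.f11 w :=
  Pool.Agent.U309.ZFTw.conv Pool.Agent.Y812.QTN11.isForm11 (fun n => Pool.Agent.Y702.M.coeff_int n)

theorem base14 : ∃ w : ℝ, IsFormOf 5805 (-285714) 14 Pool.Agent.W97.MT.form14 w :=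
  Pool.Agent.U309.ZFTw.conv Pool.Agent.Y812.TM.isForm14 (fun n => Pool.Agent.TH940.Inst.facts.1 n)

/-- `L(f, 3/2) ≠ 0` -/
theorem edge_of (hLC : S_LC2) (hEDGE : S_EDGE) (a b : ℤ) (N : ℕ) [NeZero N]
    (f : CuspForm (Gamma0 N : Subgroup (GL (Fin 2) ℝ)) 2) (w : ℝ) (hab : 4 * a ^ 3 + 27 * b ^ 2 ≠ 0)
    (hf : IsFormOf a b N f w) (hL : ∀ L : ℂ → ℂ, IsL f L → L (3 / 2) ≠ 0) : EdgeOK f :=
  hEDGE hLC a b N f w hab hf hL

theorem edge_pos (hLC : S_LC2) (hEDGE : S_EDGE) (hPOS : S_POS) (a b : ℤ) (N : ℕ) [NeZero N]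
    (f : CuspForm (Gamma0 N : Subgroup (GL (Fin 2) ℝ)) 2) (w : ℝ) (hab : 4 * a ^ 3 + 27 * b ^ 2 ≠ 0)
    (hf : IsFormOf a b N f w) (hp : ∀ τ : ℍ, (τ : ℂ).re = 0 → 0 < (f τ).re) : EdgeOK f := by
  obtain ⟨-, -, -, -, -, hs, -⟩ := hLC a b N f w hab hf
  exact hEDGE hLC a b N f w hab hf (hPOS N f hf.real hs hp)

end Pool.Agent.U309.ZF
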