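import Pool.Agent.U309.ZF.Fin2
import Pool.Agent.U309.ZF.Stm3

set_option autoImplicit false

open Metric Complex Set NumberField IsDedekindDomain MatrixGroups CongruenceSubgroup
open scoped TensorProduct ComplexConjugate

namespace Pool.Agent.U309.ZF

/-- heights up to `T` -/
def zoneP (c Q T : ℝ) : Set ℂ := {s : ℂ | |s.im| ≤ T ∧ 3 / 2 - c / (Q + Real.log (T + 3)) ≤ s.re}

/-- all heights -/
def zoneQ (c Q : ℝ) : Set ℂ := {s : ℂ | 3 / 2 - c / (Q + Real.log (|s.im| + 3)) ≤ s.re}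

/-- At most one exceptional field. -/
def PageGoal : Prop := ∀ (a b : ℤ) (N : ℕ) [NeZero N]
  (f : CuspForm (Gamma0 N : Subgroup (GL (Fin 2) ℝ)) 2) (w : ℝ), 4 * a ^ 3 + 27 * b ^ 2 ≠ 0 →
  IsFormOf a b N f w → ∀ n : ℕ, ∃ c : ℝ, 0 < c ∧ ∀ (K₁ K₂ L : Type) [Field K₁] [NumberField K₁]
    [Field K₂] [NumberField K₂] [Field L] [NumberField L],
    Module.finrank ℚ K₁ = n → Module.finrank ℚ K₂ = n → DoublyTransitive K₁ → DoublyTransitive K₂ →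
    Nonempty ((K₁ ⊗[ℚ] K₂) ≃ₐ[ℚ] L) →
    ∀ (α₁ : HeightOneSpectrum (𝓞 K₁) → Fin 2 → ℂ) (F₁ : ℂ → ℂ)
      (α₂ : HeightOneSpectrum (𝓞 K₂) → Fin 2 → ℂ) (F₂ : ℂ → ℂ),
      IsParameter a b α₁ → IsContinuation α₁ F₁ → IsParameter a b α₂ → IsContinuation α₂ F₂ →
      (∀ T Q : ℝ, 0 ≤ T → 1 ≤ Q → ld K₁ ≤ Q → ld K₂ ≤ Q →
        (∀ s : ℂ, |s.im| ≤ T + 3 → |s.re - 5 / 2| ≤ 5 / 2 → ‖F₁ s‖ ≤ Real.exp Q) →
        (∀ s : ℂ, |s.im| ≤ T + 3 → |s.re - 5 / 2| ≤ 5 / 2 → ‖F₂ s‖ ≤ Real.exp Q) →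
        (∀ z ∈ zoneP c Q T, F₁ z ≠ 0) ∨ (∀ z ∈ zoneP c Q T, F₂ z ≠ 0)) ∧
      ∀ (A₁ A₂ Q : ℝ) (v₁ v₂ : ℂ) (Λ₁ Λ₂ : ℂ → ℂ), 1 ≤ A₁ → 1 ≤ A₂ → (v₁ = 1 ∨ v₁ = -1) →
        (v₂ = 1 ∨ v₂ = -1) → FiniteOrder F₁ → FiniteOrder F₂ →
        IsCompleted A₁ n v₁ F₁ Λ₁ → IsCompleted A₂ n v₂ F₂ Λ₂ →
        Real.log A₁ + ld K₁ ≤ Q → Real.log A₂ + ld K₂ ≤ Q →
        (∀ z ∈ zoneQ c Q, F₁ z ≠ 0) ∨ (∀ z ∈ zoneQ c Q, F₂ z ≠ 0)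

/-- a real zero and the logarithmic derivative -/
theorem near3 {C5 : ℝ} (hC5 : 0 < C5) : ∃ C1 : ℝ, 0 < C1 ∧ ∀ F : ℂ → ℂ, Differentiable ℂ F →
    (∀ s : ℂ, 3 / 2 < s.re → F s ≠ 0) → (∀ s : ℂ, 2 ≤ s.re → Real.exp (-C5) ≤ ‖F s‖) →
    ∀ (B : ℝ) (z : ℂ), 1 ≤ B → z.im = 0 → F z = 0 →
    (∀ s ∈ closedBall ((5 / 2 : ℂ) + (0 : ℝ) * I) (5 / 2), ‖F s‖ ≤ Real.exp B) →
    3 / 2 - z.re ≤ 1 / 10 → 0 ≤ 3 / 2 - z.re ∧ ∀ δ : ℝ, 0 < δ → δ ≤ 1 →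
      1 / (δ + (3 / 2 - z.re)) - C1 * B ≤ (logDeriv F ((3 / 2 + δ : ℝ) + (0 : ℝ) * I)).re := by
  obtain ⟨Cm, hCm, km⟩ := t_NEAR1
  refine ⟨Cm * (1 + C5), by positivity, ?_⟩
  intro F hFd hnz hbd B z hB him hz0 h2 hη10
  have hcent : ((5 / 2 : ℂ) + (0 : ℝ) * I).re = 5 / 2 ∧ ((5 / 2 : ℂ) + (0 : ℝ) * I).im = 0 := by
    have := re_form (5 / 2) 0
    push_cast at this ⊢
    exact this
  have hne : ∃ v, F v ≠ 0 := ⟨(5 / 2 : ℂ) + (0 : ℝ) * I, hnz _ (by rw [hcent.1]; norm_num)⟩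
  have hre : z.re ≤ 3 / 2 := by
    by_contra hcon
    exact hnz z (not_le.1 hcon) hz0
  set η := 3 / 2 - z.re with hη
  have hη0 : 0 ≤ η := by linarith
  refine ⟨hη0, fun δ hδ hδ1 => ?_⟩
  have hzf : z = ((3 / 2 - η : ℝ) : ℂ) + ((0 : ℝ) : ℂ) * I := by
    have := form_eq z
    rw [him] at this
    exact this
  obtain ⟨G, hG, -, hFG⟩ := fac1 hFd hne hz0
  have h4 := km F G 0 (B + C5) z hFd hG hFG (by linarith)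
    (fun s hs => (h2 s hs).trans (Real.exp_le_exp.2 (by linarith))) hnz
    ((Real.exp_le_exp.2 (by linarith)).trans (hbd ((5 / 2 : ℂ) + (0 : ℝ) * I) (by
      rw [hcent.1]; norm_num))) (by
      rw [hzf]
      have e : ((3 / 2 - η : ℝ) : ℂ) + ((0 : ℝ) : ℂ) * I - ((5 / 2 : ℂ) + (0 : ℝ) * I) =
          ((-(1 + η) : ℝ) : ℂ) := by
        push_cast; ring
      rw [e, norm_real, Real.norm_eq_abs, abs_neg, abs_of_nonneg (by linarith)]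
      linarith) δ hδ hδ1
  have h5 := re_one (γ := 0) hδ hη0 le_rfl
  rw [← hzf] at h5
  have h12 : Cm * (B + C5) ≤ Cm * (1 + C5) * B := by
    have h13 : B + C5 ≤ (1 + C5) * B := by nlinarith
    have h14 := mul_le_mul_of_nonneg_left h13 hCm.le
    nlinarith
  have e6 : 1 / (δ + η) = δ / (δ + η) * (1 / δ) := by
    have : δ + η ≠ 0 := by positivity
    field_simp
  rw [e6]
  exact le_trans (sub_le_sub h5 h12) h4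

theorem t_PAGE (hDED : S_DED) (hZETA : S_ZETA) (hRS : S_RS) (hALG : S_ALG) (hPI : S_PI) (hEUL : S_EUL)
    (hLF : S_LF2) (hFE : S_FE) (hCore : PageCore) : PageGoal := by
  intro a b N _ f w hab hf n
  obtain ⟨cA, hcA, kA⟩ := t_GOAL hDED hZETA hRS hALG hPI hEUL hLF hFE a b N f w hab hf n
  obtain ⟨C5, hC5, k5⟩ := hEUL a b N f w hab hf n
  obtain ⟨C7, hC7, k7⟩ := hFE n C5
  obtain ⟨C1, hC1, kn⟩ := near3 hC5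
  obtain ⟨κ, hκ0, kc⟩ := hCore C1 hC1 a b N f w hab hf n
  obtain ⟨c, hc⟩ : ∃ c : ℝ, c = min (cA / 2) (min (1 / 10) (κ / (2 * C7 + 3))) := ⟨_, rfl⟩
  have hc0 : 0 < c := by rw [hc]; exact lt_min (by positivity) (lt_min (by norm_num) (by positivity))
  have hcA2 : c ≤ cA / 2 := by rw [hc]; exact min_le_left _ _
  have hc10 : c ≤ 1 / 10 := by rw [hc]; exact (min_le_right _ _).trans (min_le_left _ _)
  have hcκ : c * (2 * C7 + 3) ≤ κ := by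
    have : c ≤ κ / (2 * C7 + 3) := by rw [hc]; exact (min_le_right _ _).trans (min_le_right _ _)
    rwa [le_div_iff₀ (by positivity)] at this
  have hc3κ : c * 3 ≤ κ := by
    have : 0 ≤ c * C7 := by positivity
    nlinarith
  refine ⟨c, hc0, ?_⟩
  intro K₁ K₂ L _ _ _ _ _ _ hn₁ hn₂ hD₁ hD₂ hL α₁ F₁ α₂ F₂ hα₁ hF₁ hα₂ hF₂
  obtain ⟨hnz₁, -, hbd₁, -⟩ := k5 K₁ hn₁ α₁ F₁ hα₁ hF₁
  obtain ⟨hnz₂, -, hbd₂, -⟩ := k5 K₂ hn₂ α₂ F₂ hα₂ hF₂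
  have hl₁ := ld_nonneg K₁
  have hl₂ := ld_nonneg K₂
  have hcent : ((5 / 2 : ℂ) + (0 : ℝ) * I).re = 5 / 2 ∧ ((5 / 2 : ℂ) + (0 : ℝ) * I).im = 0 := by
    have := re_form (5 / 2) 0
    push_cast at this ⊢
    exact this
  have hball : ∀ (s : ℂ), s ∈ closedBall ((5 / 2 : ℂ) + (0 : ℝ) * I) (5 / 2) →
      |s.re - 5 / 2| ≤ 5 / 2 ∧ |s.im| ≤ 5 / 2 := by
    intro s hs
    rw [mem_closedBall, dist_eq] at hs
    have h1 := (abs_re_le_norm (s - ((5 / 2 : ℂ) + (0 : ℝ) * I))).trans hs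
    have h2 := (abs_im_le_norm (s - ((5 / 2 : ℂ) + (0 : ℝ) * I))).trans hs
    rw [sub_re, hcent.1] at h1
    rw [sub_im, hcent.2, sub_zero] at h2
    exact ⟨h1, h2⟩
  -- two real zeros
  have key : ∀ (B M : ℝ) (z₁ z₂ : ℂ), 1 ≤ B → 1 ≤ M → z₁.im = 0 → z₂.im = 0 → F₁ z₁ = 0 → F₂ z₂ = 0 →
      (∀ s ∈ closedBall ((5 / 2 : ℂ) + (0 : ℝ) * I) (5 / 2), ‖F₁ s‖ ≤ Real.exp B) →
      (∀ s ∈ closedBall ((5 / 2 : ℂ) + (0 : ℝ) * I) (5 / 2), ‖F₂ s‖ ≤ Real.exp B) →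
      3 / 2 - z₁.re ≤ c / M → 3 / 2 - z₂.re ≤ c / M → c / M * (B + ld K₁ + ld K₂) ≤ κ → False := by
    intro B M z₁ z₂ hB hM i₁ i₂ hz₁ hz₂ b₁ b₂ e₁ e₂ hκ
    have hcM : c / M ≤ 1 / 10 := (div_le_self hc0.le hM).trans hc10
    obtain ⟨p₁, q₁⟩ := kn F₁ hF₁.1 hnz₁ (fun s hs => (hbd₁ s hs).2) B z₁ hB i₁ hz₁ b₁ (e₁.trans hcM)
    obtain ⟨p₂, q₂⟩ := kn F₂ hF₂.1 hnz₂ (fun s hs => (hbd₂ s hs).2) B z₂ hB i₂ hz₂ b₂ (e₂.trans hcM)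
    exact kc K₁ K₂ L hn₁ hn₂ hD₁ hD₂ hL α₁ F₁ α₂ F₂ hα₁ hF₁ hα₂ hF₂ B _ _ hB p₁ p₂
      ((mul_le_mul_of_nonneg_right e₁ (by linarith)).trans hκ)
      ((mul_le_mul_of_nonneg_right e₂ (by linarith)).trans hκ) q₁ q₂
  constructor
  · intro T Q hT hQ hK₁ hK₂ hb₁ hb₂
    by_contra hcon
    push Not at hcon
    obtain ⟨⟨z₁, hz₁, h01⟩, ⟨z₂, hz₂, h02⟩⟩ := hcon
    have hT3 : 0 ≤ Real.log (T + 3) := Real.log_nonneg (by linarith)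
    have hM : 1 ≤ Q + Real.log (T + 3) := by linarith
    have sub : ∀ D : ℝ, 0 ≤ D → D ≤ Q → zoneP c Q T ⊆ zone₁ cA Q D T := by
      intro D hD0 hDQ z hz
      refine ⟨hz.1, le_trans ?_ hz.2⟩
      have h1 : c / (Q + Real.log (T + 3)) ≤ cA / (Q + D + Real.log (T + 3)) := by
        rw [div_le_div_iff₀ (by linarith) (by linarith)]
        nlinarith
      linarith
    have r₁ : z₁.im = 0 := ((kA K₁ hn₁ hD₁ α₁ F₁ hα₁ hF₁).1 T Q hT hQ hb₁ z₁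
      (sub _ hl₁ hK₁ hz₁) h01).1
    have r₂ : z₂.im = 0 := ((kA K₂ hn₂ hD₂ α₂ F₂ hα₂ hF₂).1 T Q hT hQ hb₂ z₂
      (sub _ hl₂ hK₂ hz₂) h02).1
    refine key Q (Q + Real.log (T + 3)) z₁ z₂ hQ hM r₁ r₂ h01 h02
      (fun s hs => hb₁ s (by linarith [(hball s hs).2]) (hball s hs).1)
      (fun s hs => hb₂ s (by linarith [(hball s hs).2]) (hball s hs).1)
      (by have := hz₁.2; linarith) (by have := hz₂.2; linarith) ?_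
    rw [div_mul_eq_mul_div, div_le_iff₀ (by linarith)]
    have h1 : c * (Q + ld K₁ + ld K₂) ≤ c * (3 * (Q + Real.log (T + 3))) :=
      mul_le_mul_of_nonneg_left (by linarith) hc0.le
    have h2 : c * 3 * (Q + Real.log (T + 3)) ≤ κ * (Q + Real.log (T + 3)) :=
      mul_le_mul_of_nonneg_right hc3κ (by linarith)
    linarith
  · intro A₁ A₂ Q v₁ v₂ Λ₁ Λ₂ hA₁ hA₂ hv₁ hv₂ ho₁ ho₂ hc₁ hc₂ hQ₁ hQ₂
    by_contra hcon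
    push Not at hcon
    obtain ⟨⟨z₁, hz₁, h01⟩, ⟨z₂, hz₂, h02⟩⟩ := hcon
    have hlA₁ : 0 ≤ Real.log A₁ := Real.log_nonneg hA₁
    have hlA₂ : 0 ≤ Real.log A₂ := Real.log_nonneg hA₂
    have hQ0 : 0 ≤ Q := by linarith
    have sub : ∀ A D : ℝ, 0 ≤ Real.log A → 0 ≤ D → Real.log A + D ≤ Q → zoneQ c Q ⊆ zone₂ cA A D := by
      intro A D hA0 hD0 hDQ z hz
      have hz2 : 3 / 2 - c / (Q + Real.log (|z.im| + 3)) ≤ z.re := hz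
      have h := log3 z.im
      have h1 : c / (Q + Real.log (|z.im| + 3)) ≤ cA / (Real.log A + D + Real.log (|z.im| + 3)) := by
        rw [div_le_div_iff₀ (by linarith) (by linarith)]
        nlinarith
      change 3 / 2 - cA / (Real.log A + D + Real.log (|z.im| + 3)) ≤ z.re
      linarith
    have r₁ : z₁.im = 0 := ((kA K₁ hn₁ hD₁ α₁ F₁ hα₁ hF₁).2 A₁ v₁ Λ₁ hA₁ hv₁ ho₁ hc₁ z₁
      (sub _ _ hlA₁ hl₁ hQ₁ hz₁) h01).1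
    have r₂ : z₂.im = 0 := ((kA K₂ hn₂ hD₂ α₂ F₂ hα₂ hF₂).2 A₂ v₂ Λ₂ hA₂ hv₂ ho₂ hc₂ z₂
      (sub _ _ hlA₂ hl₂ hQ₂ hz₂) h02).1
    have hg₁ := k7 A₁ v₁ F₁ Λ₁ hA₁ hv₁ hF₁.1 ho₁ hc₁ (fun s hs => (hbd₁ s hs).1)
    have hg₂ := k7 A₂ v₂ F₂ Λ₂ hA₂ hv₂ hF₂.1 ho₂ hc₂ (fun s hs => (hbd₂ s hs).1)
    obtain ⟨ℓ, hℓd⟩ : ∃ ℓ : ℝ, ℓ = Real.log (|(0 : ℝ)| + 3) := ⟨_, rfl⟩
    have hℓ1 : 1 ≤ ℓ := by rw [hℓd]; exact log3 0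
    have hsm : ∀ s : ℂ, |s.im| ≤ 5 / 2 → Real.log (|s.im| + 3) ≤ 2 * ℓ := by
      intro s hs
      have h5 : Real.log (|s.im| + 3) ≤ Real.log ((|(0 : ℝ)| + 3) ^ 2) := by
        refine Real.log_le_log (by positivity) ?_
        rw [abs_zero]
        linarith
      rw [Real.log_pow, Nat.cast_ofNat, ← hℓd] at h5
      exact h5
    have hB : 1 ≤ C7 * (Q + 2 * ℓ) + 1 := by
      have : 0 ≤ C7 * (Q + 2 * ℓ) := by positivity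
      linarith
    have gg : ∀ (A : ℝ) (F : ℂ → ℂ), Real.log A ≤ Q →
        (∀ s : ℂ, 0 ≤ s.re → s.re ≤ 5 →
          ‖F s‖ ≤ Real.exp (C7 * (Real.log A + Real.log (|s.im| + 3)))) →
        ∀ s ∈ closedBall ((5 / 2 : ℂ) + (0 : ℝ) * I) (5 / 2), ‖F s‖ ≤
          Real.exp (C7 * (Q + 2 * ℓ) + 1) := by
      intro A F hAQ hg s hs
      obtain ⟨h1, h2⟩ := hball s hs
      have h3 := abs_le.1 h1
      refine (hg s (by linarith [h3.1]) (by linarith [h3.2])).trans (Real.exp_le_exp.2 ?_)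
      have h6 : C7 * (Real.log A + Real.log (|s.im| + 3)) ≤ C7 * (Q + 2 * ℓ) :=
        mul_le_mul_of_nonneg_left (by linarith [hsm s h2]) hC7.le
      linarith
    have ee : ∀ z : ℂ, z.im = 0 → z ∈ zoneQ c Q → 3 / 2 - z.re ≤ c / (Q + ℓ) := by
      intro z hz hz'
      have hz2 : 3 / 2 - c / (Q + Real.log (|z.im| + 3)) ≤ z.re := hz'
      rw [hz, ← hℓd] at hz2
      linarith
    refine key (C7 * (Q + 2 * ℓ) + 1) (Q + ℓ) z₁ z₂ hB (by linarith) r₁ r₂ h01 h02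
      (gg A₁ F₁ (by linarith) hg₁) (gg A₂ F₂ (by linarith) hg₂) (ee z₁ r₁ hz₁) (ee z₂ r₂ hz₂) ?_
    rw [div_mul_eq_mul_div, div_le_iff₀ (by linarith)]
    have h1 : C7 * (Q + 2 * ℓ) + 1 + ld K₁ + ld K₂ ≤ (2 * C7 + 3) * (Q + ℓ) := by
      have j1 : 0 ≤ C7 * Q := by positivity
      nlinarith
    have h2 := mul_le_mul_of_nonneg_left h1 hc0.le
    have h3 : c * (2 * C7 + 3) * (Q + ℓ) ≤ κ * (Q + ℓ) :=
      mul_le_mul_of_nonneg_right hcκ (by linarith)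
    linarith

end Pool.Agent.U309.ZF
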