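import Pool.Agent.U309.ZF.All
import Pool.Agent.U309.ZF.Fin4
import Pool.Agent.U309.ZF.Base
import Pool.Agent.U356.ZF.HK
import Pool.Agent.U637.ZF.DLX2
import Pool.Agent.U894.ZF.DLW
import Pool.Agent.U774.ZF.IDX3
import Pool.Agent.U446.ZF.CNT3
import Pool.Agent.U122.ZF.CORE4
import Pool.Agent.U140.ZF.EDGE
import Pool.Agent.U402.ZF.POS
import Pool.Agent.U2.ZF.ETA14
import Pool.Agent.U774.ZF.ETA11
import Pool.Agent.U934.ZF.LC2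

set_option autoImplicit false

open UpperHalfPlane MatrixGroups CongruenceSubgroup

namespace Pool.Agent.U309.ZF

theorem t_DLX : S_DLX := Pool.Agent.U637.ZF.t_DLX2 Pool.Agent.U356.ZF.t_HK

theorem t_DL : S_DL := Pool.Agent.U894.ZF.t_DLW Pool.Agent.U61.ZF.t_RED t_DLX

theorem t_ALG3 : S_ALG3 := Pool.Agent.U446.ZF.t_CNT3 Pool.Agent.U774.ZF.t_IDX3

theorem main4 : PageGoal4 :=
  t_PAGE4 t_DED t_ZETA Pool.Agent.U263.ZF.RS.t_RS t_ALG Pool.Agent.U395.ZF.t_PI t_EUL t_LF2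
    Pool.Agent.U165.ZF.FE.t_FE
    (Pool.Agent.U122.ZF.t_CORE4 t_DED t_ZETA Pool.Agent.U263.ZF.RS.t_RS t_ALG t_ALG3
      Pool.Agent.U395.ZF.t_PI t_EUL t_DL)

theorem edge (a b : ℤ) (N : ℕ) [NeZero N]
    (f : CuspForm (Gamma0 N : Subgroup (GL (Fin 2) ℝ)) 2) (w : ℝ) (hab : 4 * a ^ 3 + 27 * b ^ 2 ≠ 0)
    (hf : IsFormOf a b N f w) (hL : ∀ L : ℂ → ℂ, IsL f L → L (3 / 2) ≠ 0) : EdgeOK f :=
  edge_of Pool.Agent.U934.ZF.t_LC2 Pool.Agent.U140.ZF.t_EDGE a b N f w hab hf hL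

theorem edge11 (w : ℝ) (hf : IsFormOf (-13392) (-1080432) 11 Pool.Agent.W97.TW.f11 w) :
    EdgeOK Pool.Agent.W97.TW.f11 :=
  edge_pos Pool.Agent.U934.ZF.t_LC2 Pool.Agent.U140.ZF.t_EDGE Pool.Agent.U402.ZF.t_POS
    _ _ _ _ w (by norm_num) hf Pool.Agent.U774.ZF.t_ETA11

theorem edge14 (w : ℝ) (hf : IsFormOf 5805 (-285714) 14 Pool.Agent.W97.MT.form14 w) :
    EdgeOK Pool.Agent.W97.MT.form14 :=
  edge_pos Pool.Agent.U934.ZF.t_LC2 Pool.Agent.U140.ZF.t_EDGE Pool.Agent.U402.ZF.t_POS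
    _ _ _ _ w (by norm_num) hf Pool.Agent.U2.ZFETA.t_ETA14

end Pool.Agent.U309.ZF
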