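import Mathlib

/-! The number of the points modulo `p`: two forms. -/

set_option autoImplicit false

namespace Pool.Agent.U309.ZF.Tw

theorem card_eq (a b : ℤ) (p : ℕ) [NeZero p] :
    Nat.card {x : ZMod p × ZMod p // x.2 ^ 2 = x.1 ^ 3 + (a : ZMod p) * x.1 + (b : ZMod p)} =
    ((Finset.range p ×ˢ Finset.range p).filter (fun xy : ℕ × ℕ => (p : ℤ) ∣ (xy.2 : ℤ) ^ 2 -
      ((xy.1 : ℤ) ^ 3 + a * (xy.1 : ℤ) + b))).card := by
  classical
  rw [Nat.card_eq_fintype_card, Fintype.card_subtype]
  refine Finset.card_nbij' (fun x : ZMod p × ZMod p => (x.1.val, x.2.val))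
    (fun y : ℕ × ℕ => ((y.1 : ZMod p), (y.2 : ZMod p))) ?_ ?_ ?_ ?_
  · intro x hx
    simp only [Finset.coe_filter, Finset.mem_univ, true_and, Set.mem_setOf_eq] at hx
    simp only [Finset.coe_filter, Finset.mem_product, Finset.mem_range, Set.mem_setOf_eq]
    refine ⟨⟨ZMod.val_lt _, ZMod.val_lt _⟩, ?_⟩
    rw [← ZMod.intCast_zmod_eq_zero_iff_dvd]
    push_cast
    rw [ZMod.natCast_zmod_val, ZMod.natCast_zmod_val, hx]
    ring
  · intro y hy
    simp only [Finset.coe_filter, Finset.mem_product, Finset.mem_range, Set.mem_setOf_eq] at hy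
    simp only [Finset.coe_filter, Finset.mem_univ, true_and, Set.mem_setOf_eq]
    have := (ZMod.intCast_zmod_eq_zero_iff_dvd _ p).2 hy.2
    push_cast at this
    linear_combination this
  · intro x hx
    simp
  · intro y hy
    simp only [Finset.coe_filter, Finset.mem_product, Finset.mem_range, Set.mem_setOf_eq] at hy
    simp only [ZMod.val_natCast_of_lt hy.1.1, ZMod.val_natCast_of_lt hy.1.2]

end Pool.Agent.U309.ZF.Tw
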