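import Pool.Agent.U309.ZF.Near

set_option autoImplicit false

open Metric Complex Set NumberField IsDedekindDomain MatrixGroups CongruenceSubgroup
open scoped TensorProduct ComplexConjugate

namespace Pool.Agent.U309.ZF

/-! ### Factoring out zeros -/

theorem fac1 {F : ℂ → ℂ} (hF : Differentiable ℂ F) (hne : ∃ v, F v ≠ 0) {ρ : ℂ} (h : F ρ = 0) :
    ∃ G : ℂ → ℂ, Differentiable ℂ G ∧ (∃ v, G v ≠ 0) ∧ ∀ s, F s = (s - ρ) * G s := by
  obtain ⟨n, G, hG, hGρ, hFG⟩ := Pool.Agent.H437R2.factor_one F hF hne ρ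
  cases n with
  | zero =>
    exfalso
    have := hFG ρ
    rw [h, pow_zero, one_mul] at this
    exact hGρ this.symm
  | succ m =>
    have h1 : ∀ s, F s = (s - ρ) * ((s - ρ) ^ m * G s) := fun s => by rw [hFG s]; ring
    refine ⟨fun s => (s - ρ) ^ m * G s, ((differentiable_id.sub_const ρ).pow m).mul hG, ?_, h1⟩
    obtain ⟨v, hv⟩ := hne
    exact ⟨v, fun h0 => hv (by rw [h1 v]; simp only at h0; rw [h0, mul_zero])⟩

theorem fac2 {F : ℂ → ℂ} (hF : Differentiable ℂ F) (hne : ∃ v, F v ≠ 0) {ρ₁ ρ₂ : ℂ} (h₁ : F ρ₁ = 0)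
    (h₂ : F ρ₂ = 0) (hd : ρ₁ ≠ ρ₂ ∨ deriv F ρ₁ = 0) (he : ρ₁ ≠ ρ₂ ∨ ρ₁ = ρ₂) :
    ∃ G : ℂ → ℂ, Differentiable ℂ G ∧ ∀ s, F s = (s - ρ₁) * (s - ρ₂) * G s := by
  obtain ⟨G, hG, hGne, hFG⟩ := fac1 hF hne h₁
  have h3 : G ρ₂ = 0 := by
    by_cases hr : ρ₁ = ρ₂
    · subst hr
      have hd' : deriv F ρ₁ = 0 := by
        rcases hd with h | h
        · exact absurd rfl h
        · exact h
      have hfun : F = fun s => (s - ρ₁) * G s := funext hFG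
      have h4 : HasDerivAt F (1 * G ρ₁ + (ρ₁ - ρ₁) * deriv G ρ₁) ρ₁ := by
        rw [hfun]
        exact ((hasDerivAt_id ρ₁).sub_const ρ₁).mul (hG ρ₁).hasDerivAt
      rw [h4.deriv] at hd'
      simpa using hd'
    · have h4 := hFG ρ₂
      rw [h₂] at h4
      exact (mul_eq_zero.1 h4.symm).resolve_left (sub_ne_zero.2 (Ne.symm hr))
  obtain ⟨G₂, hG₂, -, hGG⟩ := fac1 hG hGne h3
  exact ⟨G₂, hG₂, fun s => by rw [hFG s, hGG s]; ring⟩

/-! ### Sums over primes -/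

/-- the weight -/
noncomputable def ww (δ : ℝ) (p : Nat.Primes) : ℝ :=
  Real.log ((p : ℕ) : ℝ) * ((p : ℕ) : ℝ) ^ (-(1 + δ))

theorem ww_nonneg (δ : ℝ) (p : Nat.Primes) : 0 ≤ ww δ p :=
  mul_nonneg (Real.log_natCast_nonneg _) (Real.rpow_nonneg (Nat.cast_nonneg _) _)

theorem ww_le_log {δ : ℝ} (hδ : 0 < δ) (p : Nat.Primes) : ww δ p ≤ Real.log ((p : ℕ) : ℝ) := by
  have h1 : (1 : ℝ) ≤ ((p : ℕ) : ℝ) := by exact_mod_cast p.2.one_le
  have h2 : ((p : ℕ) : ℝ) ^ (-(1 + δ)) ≤ 1 :=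
    Real.rpow_le_one_of_one_le_of_nonpos h1 (by linarith)
  have h3 := mul_le_mul_of_nonneg_left h2 (Real.log_nonneg h1)
  rw [mul_one] at h3
  exact h3

theorem ww_summable {δ : ℝ} (hδ : 0 < δ) : Summable (ww δ) := by
  have h1 : Summable fun p : Nat.Primes => (2 / δ) * ((p : ℕ) : ℝ) ^ (-(1 + δ / 2)) :=
    (Nat.Primes.summable_rpow.2 (by linarith)).mul_left _
  refine Summable.of_nonneg_of_le (ww_nonneg δ) (fun p => ?_) h1
  have hp : (0 : ℝ) < ((p : ℕ) : ℝ) := by exact_mod_cast p.2.pos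
  have h2 : Real.log ((p : ℕ) : ℝ) ≤ ((p : ℕ) : ℝ) ^ (δ / 2) / (δ / 2) :=
    Real.log_le_rpow_div hp.le (by linarith)
  have h3 := mul_le_mul_of_nonneg_right h2 (Real.rpow_nonneg hp.le (-(1 + δ)))
  refine h3.trans (le_of_eq ?_)
  rw [div_mul_eq_mul_div, ← Real.rpow_add hp]
  rw [show δ / 2 + -(1 + δ) = -(1 + δ / 2) by ring]
  field_simp

theorem W_hasSum {X : ℕ → ℝ} {M : ℝ} (hX : ∀ p : ℕ, p.Prime → |X p| ≤ M) {δ : ℝ} (hδ : 0 < δ) (μ : ℝ) :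
    HasSum (fun p : Nat.Primes => X p * Real.cos (μ * Real.log ((p : ℕ) : ℝ)) * ww δ p) (W X δ μ) := by
  have h1 : Summable fun p : Nat.Primes =>
      X p * Real.cos (μ * Real.log ((p : ℕ) : ℝ)) * ww δ p := by
    refine Summable.of_norm_bounded ((ww_summable hδ).mul_left M) fun p => ?_
    rw [norm_mul, norm_mul, Real.norm_eq_abs, Real.norm_eq_abs, Real.norm_eq_abs,
      abs_of_nonneg (ww_nonneg δ p)]
    refine mul_le_mul_of_nonneg_right ?_ (ww_nonneg δ p)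
    have h2 := hX p p.2
    have h3 := Real.abs_cos_le_one (μ * Real.log ((p : ℕ) : ℝ))
    have h4 : 0 ≤ M := (abs_nonneg _).trans h2
    calc |X p| * |Real.cos (μ * Real.log ((p : ℕ) : ℝ))| ≤ M * 1 :=
          mul_le_mul h2 h3 (abs_nonneg _) h4
      _ = M := mul_one M
  exact h1.hasSum

open Classical in
/-- the primes dividing `D` -/
theorem bad_sum {D : ℕ} (hD : D ≠ 0) {δ : ℝ} (hδ : 0 < δ) :
    ∃ S : ℝ, HasSum (fun p : Nat.Primes => if (p : ℕ) ∣ D then ww δ p else 0) S ∧ S ≤ Real.log D := by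
  have hfin : Set.Finite {p : Nat.Primes | (p : ℕ) ∣ D} := by
    refine Set.Finite.of_finite_image (f := fun p : Nat.Primes => (p : ℕ)) ?_ ?_
    · refine (Nat.divisors D).finite_toSet.subset ?_
      rintro _ ⟨p, hp, rfl⟩
      simpa [hD] using hp
    · intro x _ y _ h
      exact Subtype.ext h
  have h0 : HasSum (fun p : Nat.Primes => if (p : ℕ) ∣ D then ww δ p else 0)
      (∑ p ∈ hfin.toFinset, if (p : ℕ) ∣ D then ww δ p else 0) := by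
    refine hasSum_sum_of_ne_finset_zero fun p hp => ?_
    rw [if_neg]
    intro h
    exact hp (by simpa using h)
  refine ⟨_, h0, ?_⟩
  have h1 : (∑ p ∈ hfin.toFinset, if (p : ℕ) ∣ D then ww δ p else 0) ≤
      ∑ p ∈ hfin.toFinset, Real.log ((p : ℕ) : ℝ) := by
    refine Finset.sum_le_sum fun p _ => ?_
    split_ifs
    · exact ww_le_log hδ p
    · exact Real.log_natCast_nonneg _
  refine h1.trans ?_
  have h2 : ∑ p ∈ hfin.toFinset, Real.log ((p : ℕ) : ℝ) = ∑ p ∈ D.primeFactors, Real.log (p : ℝ) := by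
    refine Finset.sum_bij (fun p _ => (p : ℕ)) ?_ ?_ ?_ ?_
    · intro p hp
      have : (p : ℕ) ∣ D := by simpa using hp
      exact Nat.mem_primeFactors.2 ⟨p.2, this, hD⟩
    · intro x _ y _ h
      exact Subtype.ext h
    · intro p hp
      obtain ⟨h3, h4, -⟩ := Nat.mem_primeFactors.1 hp
      exact ⟨⟨p, h3⟩, hfin.mem_toFinset.2 h4, rfl⟩
    · intro p _
      rfl
  rw [h2, ← Real.log_prod (fun p hp => by
    have := (Nat.prime_of_mem_primeFactors hp).ne_zero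
    exact_mod_cast this)]
  refine Real.log_le_log ?_ ?_
  · refine Finset.prod_pos fun p hp => ?_
    exact_mod_cast (Nat.prime_of_mem_primeFactors hp).pos
  · have h3 := Nat.le_of_dvd (Nat.pos_of_ne_zero hD) (Nat.prod_primeFactors_dvd D)
    have h4 : ((∏ p ∈ D.primeFactors, p : ℕ) : ℝ) ≤ (D : ℝ) := Nat.cast_le.2 h3
    rwa [Nat.cast_prod] at h4

/-- the inequality at one prime -/
theorem pointwise {n l x y c e : ℝ} (hn : 2 ≤ n) (hx0 : 0 ≤ x) (hxn : x ≤ n) (hc : |c| ≤ 1)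
    (he : 0 ≤ e) (hxy : x ^ 2 ≤ x + y + n ^ 2 * e) :
    0 ≤ l ^ 2 + (1 - 1 / (4 * n ^ 2)) * (x * c ^ 2 + y * c ^ 2 + n ^ 2 * e) + 1 / (64 * n ^ 2) * c ^ 2 +
      2 * (l * x * c) - 1 / (4 * n) * (l * c) := by
  have hn0 : 0 < n := by linarith
  have h1 : 0 ≤ 1 - 1 / (4 * n ^ 2) := by
    rw [sub_nonneg, div_le_one (by positivity)]
    nlinarith
  have hc2 : c ^ 2 ≤ 1 := by
    rw [← sq_abs]
    nlinarith [abs_nonneg c]
  have h2 : x ^ 2 * c ^ 2 ≤ x * c ^ 2 + y * c ^ 2 + n ^ 2 * e := by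
    have h3 : x ^ 2 * c ^ 2 ≤ (x + y + n ^ 2 * e) * c ^ 2 :=
      mul_le_mul_of_nonneg_right hxy (sq_nonneg c)
    have h4 : n ^ 2 * e * c ^ 2 ≤ n ^ 2 * e * 1 :=
      mul_le_mul_of_nonneg_left hc2 (by positivity)
    nlinarith
  have h5 := mul_le_mul_of_nonneg_left h2 h1
  have h6 : l ^ 2 + (1 - 1 / (4 * n ^ 2)) * (x ^ 2 * c ^ 2) + 1 / (64 * n ^ 2) * c ^ 2 +
      2 * (l * x * c) - 1 / (4 * n) * (l * c) =
      (l + x * c - 1 / (8 * n) * c) ^ 2 + 1 / (4 * n ^ 2) * (c ^ 2 * (x * (n - x))) := by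
    field_simp
    ring
  have h7 : 0 ≤ 1 / (4 * n ^ 2) * (c ^ 2 * (x * (n - x))) := by
    have : 0 ≤ n - x := by linarith
    positivity
  nlinarith [sq_nonneg (l + x * c - 1 / (8 * n) * c)]

/-- the real inequality at the end -/
theorem final_ineq {n δ η g U R ℒ Cst : ℝ} (hn : 2 ≤ n) (hδ : 0 < δ) (hη0 : 0 ≤ η)
    (hη : η ≤ δ / (64 * n ^ 2)) (hU : U = 1 / δ + g) (hg0 : 0 ≤ g) (hg : g ≤ 1 / δ)
    (hR : δ / (δ + η) * U ≤ R) (hC : 0 < Cst) (hL : 0 < ℒ)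
    (hδL : δ * (16 * n ^ 2 * Cst * ℒ) ≤ 1)
    (h : 0 ≤ (1 + 1 / (16 * n ^ 2)) / δ + (1 - 31 / (128 * n ^ 2)) * U + g - 2 * R +
      Cst * ℒ) : False := by
  have hn0 : 0 < n := by linarith
  have hd : 0 < 1 / δ := by positivity
  have hU0 : 0 < U := by linarith
  have hn2 : (0 : ℝ) < n ^ 2 := by positivity
  have h1 : 1 - 1 / (64 * n ^ 2) ≤ δ / (δ + η) := by
    rw [le_div_iff₀ (by linarith)]
    have h2 : (1 - 1 / (64 * n ^ 2)) * (δ + η) = δ + η - (δ + η) / (64 * n ^ 2) := by ring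
    rw [h2]
    have h3 : δ / (64 * n ^ 2) ≤ (δ + η) / (64 * n ^ 2) :=
      div_le_div_of_nonneg_right (by linarith) (by positivity)
    linarith
  have h2 : (1 - 1 / (64 * n ^ 2)) * U ≤ R := (mul_le_mul_of_nonneg_right h1 hU0.le).trans hR
  have h3 : 0 ≤ (1 + 1 / (16 * n ^ 2)) * (1 / δ) + (1 - 31 / (128 * n ^ 2)) * U + g -
      2 * ((1 - 1 / (64 * n ^ 2)) * U) + Cst * ℒ := by
    have e : (1 + 1 / (16 * n ^ 2)) * (1 / δ) = (1 + 1 / (16 * n ^ 2)) / δ := by ring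
    rw [e]
    linarith
  set t := 1 / n ^ 2 with ht
  have ht0 : 0 < t := by positivity
  have e1 : 1 / (16 * n ^ 2) = t / 16 := by rw [ht]; field_simp
  have e2 : 31 / (128 * n ^ 2) = 31 * t / 128 := by rw [ht]; field_simp
  have e3 : 1 / (64 * n ^ 2) = t / 64 := by rw [ht]; field_simp
  rw [e1, e2, e3, hU] at h3
  have h6 : Cst * ℒ ≤ t / 16 * (1 / δ) := by
    have : t / 16 * (1 / δ) = 1 / (16 * n ^ 2 * δ) := by rw [ht]; field_simp
    rw [this, le_div_iff₀ (by positivity)]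
    calc Cst * ℒ * (16 * n ^ 2 * δ) = δ * (16 * n ^ 2 * Cst * ℒ) := by ring
      _ ≤ 1 := hδL
  have h7 : 0 < t * (1 / δ) := by positivity
  have h8 : 0 ≤ t * g := by positivity
  have h9 : t * g ≤ t * (1 / δ) := mul_le_mul_of_nonneg_left hg ht0.le
  nlinarith

/-- real parts of `1 / (z - ρ)`, the zero `ρ` -/
theorem re_one {δ γ η₁ η : ℝ} (hδ : 0 < δ) (h0 : 0 ≤ η₁) (h1 : η₁ ≤ η) :
    δ / (δ + η) * (1 / δ) ≤
      (((3 / 2 + δ : ℝ) + γ * I - ((3 / 2 - η₁ : ℝ) + γ * I) : ℂ)⁻¹).re := by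
  have e : ((3 / 2 + δ : ℝ) + γ * I - ((3 / 2 - η₁ : ℝ) + γ * I) : ℂ) = ((δ + η₁ : ℝ) : ℂ) := by
    push_cast; ring
  rw [e, ← ofReal_inv, ofReal_re, ← one_div]
  have h2 : δ / (δ + η) * (1 / δ) = 1 / (δ + η) := by
    field_simp
  rw [h2]
  exact one_div_le_one_div_of_le (by linarith) (by linarith)

theorem re_two {δ γ η₂ η : ℝ} (hδ : 0 < δ) (h0 : 0 ≤ η₂) (h1 : η₂ ≤ η) :
    δ / (δ + η) * (δ / (δ ^ 2 + (2 * γ) ^ 2)) ≤
      (((3 / 2 + δ : ℝ) + γ * I - ((3 / 2 - η₂ : ℝ) - γ * I) : ℂ)⁻¹).re := by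
  have e : ((3 / 2 + δ : ℝ) + γ * I - ((3 / 2 - η₂ : ℝ) - γ * I) : ℂ) =
      ((δ + η₂ : ℝ) : ℂ) + ((2 * γ : ℝ) : ℂ) * I := by
    push_cast; ring
  have hre : (((δ + η₂ : ℝ) : ℂ) + ((2 * γ : ℝ) : ℂ) * I).re = δ + η₂ := by
    rw [add_re, ofReal_re, mul_re, ofReal_re, I_re, ofReal_im, I_im]; ring
  have him : (((δ + η₂ : ℝ) : ℂ) + ((2 * γ : ℝ) : ℂ) * I).im = 2 * γ := by
    rw [add_im, ofReal_im, mul_im, ofReal_re, I_re, ofReal_im, I_im]; ring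
  have h2 : 0 ≤ η := h0.trans h1
  have hp1 : 0 < (δ + η) * (δ ^ 2 + (2 * γ) ^ 2) := by positivity
  have hp2 : 0 < (δ + η₂) * (δ + η₂) + 2 * γ * (2 * γ) := by
    have : 0 < (δ + η₂) * (δ + η₂) := by
      have : 0 < δ + η₂ := by linarith
      positivity
    nlinarith [sq_nonneg (2 * γ)]
  rw [e, inv_re, normSq_apply, hre, him, div_mul_div_comm, div_le_div_iff₀ hp1 hp2]
  have h3 : 0 ≤ (2 * γ) ^ 2 := sq_nonneg _
  set g := (2 * γ) ^ 2 with hg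
  have h4 : 2 * γ * (2 * γ) = g := by rw [hg]; ring
  rw [h4]
  have h5 : (δ + η₂) * (δ + η₂) * (δ ^ 2 + g) ≤ (δ + η₂) * ((δ + η) * (δ ^ 2 + g)) := by
    rw [mul_assoc]
    refine mul_le_mul_of_nonneg_left ?_ (by linarith)
    exact mul_le_mul_of_nonneg_right (by linarith) (by positivity)
  have h6 : δ * δ * ((δ + η₂) * (δ + η₂) + g) ≤ (δ + η₂) * (δ + η₂) * (δ ^ 2 + g) := by
    have h7 : δ * δ * g ≤ (δ + η₂) * (δ + η₂) * g :=
      mul_le_mul_of_nonneg_right (by nlinarith) h3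
    nlinarith
  exact h6.trans h5

end Pool.Agent.U309.ZF
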