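import Pool.Agent.U309.ZF.Asm

set_option autoImplicit false

open Metric Complex Set NumberField IsDedekindDomain MatrixGroups CongruenceSubgroup
open scoped TensorProduct ComplexConjugate

namespace Pool.Agent.U309.ZF

/-- `L(f, s)` near the edge (helper899): a simple zero at `3/2` itself is not excluded. -/
def S_LF2 : Prop := ∀ (a b : ℤ) (N : ℕ) [NeZero N]
  (f : CuspForm (Gamma0 N : Subgroup (GL (Fin 2) ℝ)) 2) (w : ℝ), 4 * a ^ 3 + 27 * b ^ 2 ≠ 0 →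
  IsFormOf a b N f w → ∃ C : ℝ, 0 < C ∧ ∀ δ μ : ℝ, 0 < δ → δ ≤ 1 →
    -(δ / (δ ^ 2 + μ ^ 2)) - C * Real.log (|μ| + 3) ≤ W (lam f) δ μ

theorem lam_le {a b : ℤ} {N : ℕ} [NeZero N] {f : CuspForm (Gamma0 N : Subgroup (GL (Fin 2) ℝ)) 2}
    {w : ℝ} (hf : IsFormOf a b N f w) {p : ℕ} (hp : p.Prime) : |lam f p| ≤ 2 := by
  have hp1 : (1 : ℝ) ≤ √(p : ℝ) := by
    rw [Real.one_le_sqrt]
    exact_mod_cast hp.one_le
  have h1 : ‖coef f p‖ ≤ 2 * √(p : ℝ) := by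
    by_cases h : p ∣ N
    · rcases hf.bad p hp h with h2 | h2 | h2
      · rw [h2, norm_zero]; linarith
      · rw [h2, norm_one]; linarith
      · rw [h2, norm_neg, norm_one]; linarith
    · exact hf.good p hp h
  unfold lam
  rw [abs_div, abs_of_nonneg (Real.sqrt_nonneg _), div_le_iff₀ (by linarith)]
  exact (abs_re_le_norm _).trans h1

theorem ld_nonneg (K : Type) [Field K] [NumberField K] : 0 ≤ ld K := by
  refine Real.log_nonneg ?_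
  have h : (1 : ℤ) ≤ |NumberField.discr K| := Int.one_le_abs (NumberField.discr_ne_zero K)
  exact_mod_cast h

theorem log3 (γ : ℝ) : 1 ≤ Real.log (|γ| + 3) := by
  rw [Real.le_log_iff_exp_le (by positivity)]
  have := Real.exp_one_lt_d9
  have := abs_nonneg γ
  linarith

theorem log2 (γ : ℝ) : Real.log (|2 * γ| + 3) ≤ 2 * Real.log (|γ| + 3) := by
  rw [abs_mul, abs_two]
  have h0 := abs_nonneg γ
  have h1 : Real.log (2 * |γ| + 3) ≤ Real.log ((|γ| + 3) ^ 2) :=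
    Real.log_le_log (by positivity) (by nlinarith)
  rw [Real.log_pow] at h1
  exact_mod_cast h1

/-- the collection of the estimates -/
theorem big_ineq {n C2 C2' C3 C5 C1 C6 B ldK ldK2 ℓ l0 l2 S A P0 P2 Q0 Q2 Z0 Z2 FL L LD δ g v U ℒ Cst : ℝ}
    (hn : 2 ≤ n) (hC2 : 0 < C2) (hC2' : 0 < C2') (hC3 : 0 < C3) (hC5 : 0 < C5) (hC1 : 0 < C1)
    (hC6 : 0 < C6) (hB : 1 ≤ B) (hld : 0 ≤ ldK) (hℓ : 1 ≤ ℓ) (hl0 : l0 ≤ ℓ) (hl2 : l2 ≤ 2 * ℓ)
    (hld2 : ldK2 ≤ 2 * n * ldK) (hS : S ≤ ldK) (hA : A ≤ (1 + 1 / (16 * n ^ 2)) / δ)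
    (p0 : P0 ≤ 1 / δ + C2 * (ldK + l0)) (p2 : P2 ≤ g + C2 * (ldK + l2))
    (q0 : Q0 ≤ 1 / δ + C2' * (ldK2 + l0)) (q2 : Q2 ≤ g + C2' * (ldK2 + l2))
    (z0 : Z0 ≤ 1 / δ + C3 * l0) (z2 : Z2 ≤ g + C3 * l2) (e1 : LD + FL ≤ C5)
    (f3 : -v - C6 * ℓ ≤ L) (hv0 : 0 ≤ v) (hv : v ≤ 4 * g)
    (tnn : 0 ≤ A + (1 - 1 / (4 * n ^ 2)) * (1 / 2 * (P0 + P2 + Q0 + Q2) + n ^ 2 * S) +
      1 / (128 * n ^ 2) * (Z0 + Z2) + 2 * FL - 1 / (4 * n) * L)
    (hU : U = 1 / δ + g) (hℒ : ℒ = B + ldK + ℓ)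
    (hCst : Cst = 2 * C2 + 2 * n * C2' + n ^ 2 + 8 * C3 + 2 * C5 + 2 * C1 + 4 * C6 + 4) :
    0 ≤ (1 + 1 / (16 * n ^ 2)) / δ + (1 - 31 / (128 * n ^ 2)) * U + g - 2 * (LD + 2 + C1 * B) +
      Cst * ℒ := by
  have hn0 : 0 < n := by linarith
  have g0 : 0 ≤ 1 - 1 / (4 * n ^ 2) := by
    rw [sub_nonneg, div_le_one (by positivity)]
    nlinarith
  have g1 : 1 - 1 / (4 * n ^ 2) ≤ 1 := by
    have : 0 ≤ 1 / (4 * n ^ 2) := by positivity
    linarith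
  have g2 : 1 / (128 * n ^ 2) ≤ 1 := by
    rw [div_le_one (by positivity)]
    nlinarith
  have g2' : 0 ≤ 1 / (128 * n ^ 2) := by positivity
  have g3 : 1 / (4 * n) ≤ 1 / 4 := by
    rw [div_le_div_iff₀ (by positivity) (by norm_num)]
    nlinarith
  have g3' : 0 ≤ 1 / (4 * n) := by positivity
  have hℒ1 : 1 ≤ ℒ := by linarith
  have hnℓ : 0 ≤ (n - 1) * ℓ := mul_nonneg (by linarith) (by linarith)
  have hnB : 0 ≤ n * B := mul_nonneg hn0.le (by linarith)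
  have i1 : C2 * (ldK + l0) ≤ C2 * ℒ := mul_le_mul_of_nonneg_left (by linarith) hC2.le
  have i2 : C2 * (ldK + l2) ≤ C2 * (2 * ℒ) := mul_le_mul_of_nonneg_left (by linarith) hC2.le
  have i3 : C2' * (ldK2 + l0) ≤ C2' * (2 * n * ℒ) := by
    refine mul_le_mul_of_nonneg_left ?_ hC2'.le
    have : 2 * n * ℒ = 2 * (n * B) + 2 * n * ldK + 2 * ((n - 1) * ℓ) + 2 * ℓ := by rw [hℒ]; ring
    linarith
  have i4 : C2' * (ldK2 + l2) ≤ C2' * (2 * n * ℒ) := by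
    refine mul_le_mul_of_nonneg_left ?_ hC2'.le
    have : 2 * n * ℒ = 2 * (n * B) + 2 * n * ldK + 2 * ((n - 1) * ℓ) + 2 * ℓ := by rw [hℒ]; ring
    linarith
  have i5 : n ^ 2 * S ≤ n ^ 2 * ℒ := mul_le_mul_of_nonneg_left (by linarith) (by positivity)
  have i6 : 0 ≤ C2 * ℒ := by positivity
  have hin : 1 / 2 * (P0 + P2 + Q0 + Q2) + n ^ 2 * S ≤ U + (2 * C2 + 2 * n * C2' + n ^ 2) * ℒ := by
    have e : (2 * C2 + 2 * n * C2' + n ^ 2) * ℒ = 2 * (C2 * ℒ) + C2' * (2 * n * ℒ) + n ^ 2 * ℒ := by ring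
    rw [e, hU]
    linarith
  have hin2 := mul_le_mul_of_nonneg_left hin g0
  have hin3 : (1 - 1 / (4 * n ^ 2)) * (U + (2 * C2 + 2 * n * C2' + n ^ 2) * ℒ) ≤
      (1 - 1 / (4 * n ^ 2)) * U + (2 * C2 + 2 * n * C2' + n ^ 2) * ℒ := by
    rw [mul_add]
    have h1 : 0 ≤ (2 * C2 + 2 * n * C2' + n ^ 2) * ℒ := by positivity
    have h2 := mul_le_mul_of_nonneg_right g1 h1
    linarith
  have hz : 1 / (128 * n ^ 2) * (Z0 + Z2) ≤ 1 / (128 * n ^ 2) * U + 8 * C3 * ℒ := by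
    have j1 : C3 * l0 ≤ C3 * ℒ := mul_le_mul_of_nonneg_left (by linarith) hC3.le
    have j2 : C3 * l2 ≤ C3 * (2 * ℒ) := mul_le_mul_of_nonneg_left (by linarith) hC3.le
    have j0 : 0 ≤ C3 * ℒ := by positivity
    have j3 : Z0 + Z2 ≤ U + 8 * C3 * ℒ := by
      rw [hU]
      linarith
    have j4 := mul_le_mul_of_nonneg_left j3 g2'
    have j5 : 1 / (128 * n ^ 2) * (8 * C3 * ℒ) ≤ 1 * (8 * C3 * ℒ) :=
      mul_le_mul_of_nonneg_right g2 (by positivity)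
    linarith
  have hL4 : -(1 / (4 * n) * L) ≤ g + 4 * C6 * ℒ := by
    have j1 : -L ≤ v + C6 * ℒ := by
      have : C6 * ℓ ≤ C6 * ℒ := mul_le_mul_of_nonneg_left (by linarith) hC6.le
      linarith
    have j0 : 0 ≤ C6 * ℒ := by positivity
    have j2 := mul_le_mul_of_nonneg_left j1 g3'
    have j3 : 1 / (4 * n) * (v + C6 * ℒ) ≤ 1 / 4 * (v + C6 * ℒ) :=
      mul_le_mul_of_nonneg_right g3 (by positivity)
    linarith
  have hC5' : 2 * C5 ≤ 2 * C5 * ℒ := le_mul_of_one_le_right (by positivity) hℒ1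
  have hBL : 2 * (C1 * B) ≤ 2 * C1 * ℒ := by
    have : C1 * B ≤ C1 * ℒ := mul_le_mul_of_nonneg_left (by linarith) hC1.le
    linarith
  have h4L : (4 : ℝ) ≤ 4 * ℒ := by linarith
  have hexp : Cst * ℒ = (2 * C2 + 2 * n * C2' + n ^ 2) * ℒ + 8 * C3 * ℒ + 2 * C5 * ℒ + 2 * C1 * ℒ +
      4 * C6 * ℒ + 4 * ℒ := by rw [hCst]; ring
  have hU2 : (1 - 31 / (128 * n ^ 2)) * U = (1 - 1 / (4 * n ^ 2)) * U + 1 / (128 * n ^ 2) * U := by
    field_simp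
    ring
  rw [hexp, hU2]
  linarith

theorem core (hDED : S_DED) (hZETA : S_ZETA) (hRS : S_RS) (hALG : S_ALG) (hPI : S_PI) (hEUL : S_EUL)
    (hLF : S_LF2) {C1 : ℝ} (hC1 : 0 < C1) (a b : ℤ) (N : ℕ) [NeZero N]
    (f : CuspForm (Gamma0 N : Subgroup (GL (Fin 2) ℝ)) 2) (w : ℝ) (hab : 4 * a ^ 3 + 27 * b ^ 2 ≠ 0)
    (hf : IsFormOf a b N f w) (n : ℕ) : ∃ κ : ℝ, 0 < κ ∧ ∀ (K : Type) [Field K] [NumberField K],
    Module.finrank ℚ K = n → DoublyTransitive K →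
    ∀ (α : HeightOneSpectrum (𝓞 K) → Fin 2 → ℂ) (F : ℂ → ℂ), IsParameter a b α → IsContinuation α F →
    ∀ γ B η : ℝ, 1 ≤ B → 0 ≤ η → η * (B + ld K + Real.log (|γ| + 3)) ≤ κ →
      (∀ δ : ℝ, 0 < δ → δ ≤ 1 → δ / (δ + η) * (1 / δ + δ / (δ ^ 2 + (2 * γ) ^ 2)) - 2 - C1 * B ≤
        (logDeriv F ((3 / 2 + δ : ℝ) + γ * I)).re) → False := by
  classical
  obtain ⟨C2, hC2, k2⟩ := hDED n
  obtain ⟨C2', hC2', k2'⟩ := hDED (n ^ 2 - n)
  obtain ⟨C3, hC3, k3⟩ := hZETA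
  obtain ⟨C5, hC5, k5⟩ := hEUL a b N f w hab hf n
  obtain ⟨C6, hC6, k6⟩ := hLF a b N f w hab hf
  obtain ⟨δ₀, hδ₀, k7⟩ := hRS a b N f w hab hf (1 / (16 * ((n : ℝ) ^ 2 + 1))) (by positivity)
  set Cst : ℝ := 2 * C2 + 2 * n * C2' + n ^ 2 + 8 * C3 + 2 * C5 + 2 * C1 + 4 * C6 + 4 with hCst
  have hCst0 : 0 < Cst := by positivity
  set κ' : ℝ := min (δ₀ / 2) (min 1 (1 / (16 * ((n : ℝ) ^ 2 + 1) * Cst))) with hκ'
  have hκ0 : 0 < κ' := by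
    refine lt_min (by positivity) (lt_min one_pos (by positivity))
  have hκ1 : κ' ≤ 1 := (min_le_right _ _).trans (min_le_left _ _)
  have hκ2 : κ' < δ₀ := lt_of_le_of_lt (min_le_left _ _) (by linarith)
  have hκ3 : κ' * (16 * ((n : ℝ) ^ 2 + 1) * Cst) ≤ 1 := by
    have h : κ' ≤ 1 / (16 * ((n : ℝ) ^ 2 + 1) * Cst) := (min_le_right _ _).trans (min_le_right _ _)
    rwa [le_div_iff₀ (by positivity)] at h
  refine ⟨κ' / (64 * ((n : ℝ) ^ 2 + 1)), by positivity, ?_⟩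
  intro K _ _ hn hDT α F hα hF γ B η hB hη hηκ hR
  obtain ⟨K₂, _, _, ⟨e⟩⟩ := hDT
  obtain ⟨hdim, hld, hcnt⟩ := hALG K K₂ ⟨e⟩
  rw [hn] at hdim hld
  have hK₂ : Module.finrank ℚ K₂ = n ^ 2 - n := by omega
  have hK₂0 : 0 < Module.finrank ℚ K₂ := Module.finrank_pos
  have hn2 : 2 ≤ n := by
    by_contra hcon
    have : n = 0 ∨ n = 1 := by omega
    rcases this with h | h
    · rw [h] at hdim; simp at hdim; omega
    · rw [h] at hdim; simp at hdim; omega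
  have hnr : (2 : ℝ) ≤ n := by exact_mod_cast hn2
  set ℓ : ℝ := Real.log (|γ| + 3) with hℓ
  have hℓ1 : 1 ≤ ℓ := log3 γ
  have hldK := ld_nonneg K
  set ℒ : ℝ := B + ld K + ℓ with hℒ
  have hℒ1 : 1 ≤ ℒ := by linarith
  set δ : ℝ := κ' / ℒ with hδd
  have hδ : 0 < δ := by positivity
  have hδκ : δ ≤ κ' := div_le_self hκ0.le hℒ1
  have hδ1 : δ ≤ 1 := hδκ.trans hκ1
  have hδℒ : δ * ℒ = κ' := by
    rw [hδd]
    field_simp
  have hδL : δ * (16 * (n : ℝ) ^ 2 * Cst * ℒ) ≤ 1 := by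
    have h : δ * (16 * (n : ℝ) ^ 2 * Cst * ℒ) = κ' * (16 * (n : ℝ) ^ 2 * Cst) := by
      rw [← hδℒ]; ring
    rw [h]
    refine le_trans ?_ hκ3
    refine mul_le_mul_of_nonneg_left ?_ hκ0.le
    nlinarith
  have hηδ : η ≤ δ / (64 * (n : ℝ) ^ 2) := by
    have h1 : η ≤ κ' / (64 * ((n : ℝ) ^ 2 + 1)) / ℒ := by
      rwa [le_div_iff₀ (by linarith)]
    refine h1.trans ?_
    rw [div_right_comm, ← hδd]
    refine div_le_div_of_nonneg_left hδ.le (by positivity) (by linarith)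
  -- the bounds
  have b1 : W (fun p => lam f p ^ 2) δ 0 ≤ (1 + 1 / (16 * (n : ℝ) ^ 2)) / δ := by
    refine (k7 δ hδ (lt_of_le_of_lt hδκ hκ2)).trans ?_
    refine div_le_div_of_nonneg_right ?_ hδ.le
    have : 1 / (16 * ((n : ℝ) ^ 2 + 1)) ≤ 1 / (16 * (n : ℝ) ^ 2) :=
      one_div_le_one_div_of_le (by positivity) (by linarith)
    linarith
  have hlog3 : Real.log (|(0 : ℝ)| + 3) ≤ ℓ := by
    rw [abs_zero]
    exact Real.log_le_log (by norm_num) (by have := abs_nonneg γ; linarith)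
  have hlog2 : Real.log (|2 * γ| + 3) ≤ 2 * ℓ := log2 γ
  have hd0 : δ / (δ ^ 2 + (0 : ℝ) ^ 2) = 1 / δ := by
    field_simp
    ring
  have p0 := k2 K hn δ 0 hδ hδ1
  have p2 := k2 K hn δ (2 * γ) hδ hδ1
  have q0 := k2' K₂ hK₂ δ 0 hδ hδ1
  have q2 := k2' K₂ hK₂ δ (2 * γ) hδ hδ1
  have z0 := k3 δ 0 hδ hδ1
  have z2 := k3 δ (2 * γ) hδ hδ1
  rw [hd0] at p0 q0 z0
  set U : ℝ := 1 / δ + δ / (δ ^ 2 + (2 * γ) ^ 2) with hU
  have hg0 : 0 ≤ δ / (δ ^ 2 + (2 * γ) ^ 2) := by positivity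
  have hg1 : δ / (δ ^ 2 + (2 * γ) ^ 2) ≤ 1 / δ := by
    rw [div_le_div_iff₀ (by positivity) hδ]
    nlinarith [sq_nonneg (2 * γ)]
  have hv0 : 0 ≤ δ / (δ ^ 2 + γ ^ 2) := by positivity
  have hv : δ / (δ ^ 2 + γ ^ 2) ≤ 4 * (δ / (δ ^ 2 + (2 * γ) ^ 2)) := by
    rw [← mul_div_assoc, div_le_div_iff₀ (by positivity) (by positivity)]
    have h1 : 0 ≤ δ * δ ^ 2 := by positivity
    nlinarith
  obtain ⟨-, -, -, k5'⟩ := k5 K hn α F hα hF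
  have f1 := k5' δ γ hδ hδ1
  have f2 := hR δ hδ hδ1
  have f3 := k6 δ γ hδ hδ1
  -- the sums
  have hPK : ∀ p : ℕ, p.Prime → |((pi1 K p : ℕ) : ℝ)| ≤ n := fun p hp => by
    rw [abs_of_nonneg (Nat.cast_nonneg _)]
    have := hPI K p hp
    rw [hn] at this
    exact_mod_cast this
  have hPK₂ : ∀ p : ℕ, p.Prime → |((pi1 K₂ p : ℕ) : ℝ)| ≤ Module.finrank ℚ K₂ := fun p hp => by
    rw [abs_of_nonneg (Nat.cast_nonneg _)]
    exact_mod_cast hPI K₂ p hp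
  have hlam := fun (p : ℕ) (hp : p.Prime) => lam_le hf hp
  have sA := W_hasSum (X := fun p => lam f p ^ 2) (M := 4) (fun p hp => by
    rw [abs_pow]
    have := hlam p hp
    nlinarith [abs_nonneg (lam f p)]) hδ 0
  have sP0 := W_hasSum (X := fun p => (pi1 K p : ℝ)) (M := n) hPK hδ 0
  have sP2 := W_hasSum (X := fun p => (pi1 K p : ℝ)) (M := n) hPK hδ (2 * γ)
  have sQ0 := W_hasSum (X := fun p => (pi1 K₂ p : ℝ)) (M := Module.finrank ℚ K₂) hPK₂ hδ 0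
  have sQ2 := W_hasSum (X := fun p => (pi1 K₂ p : ℝ)) (M := Module.finrank ℚ K₂) hPK₂ hδ (2 * γ)
  have sZ0 := W_hasSum (X := fun _ => (1 : ℝ)) (M := 1) (fun p _ => by rw [abs_one]) hδ 0
  have sZ2 := W_hasSum (X := fun _ => (1 : ℝ)) (M := 1) (fun p _ => by rw [abs_one]) hδ (2 * γ)
  have sFL := W_hasSum (X := fun p => lam f p * pi1 K p) (M := 2 * n) (fun p hp => by
    rw [abs_mul]
    exact mul_le_mul (hlam p hp) (hPK p hp) (abs_nonneg _) (by norm_num)) hδ γ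
  have sL := W_hasSum (X := fun p => lam f p) (M := 2) hlam hδ γ
  obtain ⟨S, sB, hSD⟩ := bad_sum (D := (NumberField.discr K).natAbs)
    (Int.natAbs_ne_zero.2 (NumberField.discr_ne_zero K)) hδ
  have hSD' : S ≤ ld K := by
    refine hSD.trans (le_of_eq ?_)
    unfold ld
    rw [Nat.cast_natAbs, Int.cast_abs]
  have tot := ((((sA.add ((((((sP0.add sP2).add sQ0).add sQ2).mul_left (1 / 2)).add
    (sB.mul_left ((n : ℝ) ^ 2))).mul_left (1 - 1 / (4 * (n : ℝ) ^ 2)))).add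
      ((sZ0.add sZ2).mul_left (1 / (128 * (n : ℝ) ^ 2)))).add (sFL.mul_left 2)).sub
      (sL.mul_left (1 / (4 * (n : ℝ)))))
  have tnn := tot.nonneg (fun p => by
    have hp := p.2
    set c := Real.cos (γ * Real.log ((p : ℕ) : ℝ)) with hc
    have hc0 : Real.cos (0 * Real.log ((p : ℕ) : ℝ)) = 1 := by rw [zero_mul, Real.cos_zero]
    have hc2 : Real.cos (2 * γ * Real.log ((p : ℕ) : ℝ)) = 2 * c ^ 2 - 1 := by
      rw [mul_assoc, Real.cos_two_mul]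
    have hpw := pointwise (n := (n : ℝ)) (l := lam f p) (x := (pi1 K p : ℝ)) (y := (pi1 K₂ p : ℝ))
      (c := c) (e := if (p : ℕ) ∣ (NumberField.discr K).natAbs then 1 else 0) hnr (Nat.cast_nonneg _)
      ((le_abs_self _).trans (hPK p hp)) (Real.abs_cos_le_one _) (by split_ifs <;> norm_num) (by
        split_ifs with hd
        · have h1 := (le_abs_self _).trans (hPK p hp)
          have h2 : (0 : ℝ) ≤ (pi1 K p : ℝ) := Nat.cast_nonneg _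
          have h3 : (0 : ℝ) ≤ (pi1 K₂ p : ℝ) := Nat.cast_nonneg _
          nlinarith
        · have h1 := hcnt p hp (by rwa [Int.natCast_dvd])
          rw [mul_zero, add_zero]
          exact_mod_cast h1)
    have hww := ww_nonneg δ p
    have hmul := mul_nonneg hpw hww
    have heq : (if (p : ℕ) ∣ (NumberField.discr K).natAbs then ww δ p else 0) =
        (if (p : ℕ) ∣ (NumberField.discr K).natAbs then (1 : ℝ) else 0) * ww δ p := by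
      split_ifs
      · rw [one_mul]
      · rw [zero_mul]
    rw [heq, hc0, hc2]
    refine le_of_le_of_eq hmul ?_
    ring)
  -- conclusion
  refine final_ineq (n := n) (δ := δ) (η := η) (g := δ / (δ ^ 2 + (2 * γ) ^ 2)) (U := U)
    (R := (logDeriv F ((3 / 2 + δ : ℝ) + γ * I)).re + 2 + C1 * B) (ℒ := ℒ) (Cst := Cst) hnr hδ hη hηδ hU
    hg0 hg1 (by linarith) hCst0 (by linarith) hδL ?_
  have e1 := (abs_le.1 f1).2
  exact big_ineq hnr hC2 hC2' hC3 hC5 hC1 hC6 hB hldK hℓ1 hlog3 hlog2 hld hSD' b1 p0 p2 q0 q2 z0 z2 e1 f3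
    hv0 hv tnn hU hℒ hCst

end Pool.Agent.U309.ZF
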