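import Pool.Agent.U309.ZF.Fin
import Pool.Agent.U309.ZF.Stm2

set_option autoImplicit false

open Metric Complex Set NumberField IsDedekindDomain MatrixGroups CongruenceSubgroup Filter Topology
open scoped TensorProduct ComplexConjugate

namespace Pool.Agent.U309.ZF

theorem gg_nonneg (t : ℝ) : 0 ≤ gg t := (le_max_left 0 (-2 * t)).trans (le_max_left _ _)

theorem gg_one (t : ℝ) : -2 * t ≤ gg t := (le_max_right 0 (-2 * t)).trans (le_max_left _ _)

theorem gg_two (t : ℝ) : -4 * t - 4 / 3 ≤ gg t :=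
  (le_max_left (-4 * t - 4 / 3) (-6 * t - 4)).trans (le_max_right _ _)

theorem gg_three (t : ℝ) : -6 * t - 4 ≤ gg t :=
  (le_max_right (-4 * t - 4 / 3) (-6 * t - 4)).trans (le_max_right _ _)

theorem gg_le {t : ℝ} (h1 : -2 ≤ t) (_ : t ≤ 2) : gg t ≤ 8 := by
  unfold gg
  refine max_le (max_le (by norm_num) (by linarith)) (max_le (by linarith) (by linarith))

theorem gg_cont : Continuous gg := by
  unfold gg
  fun_prop

/-- the pointwise inequality -/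
theorem gg_pw {t : ℝ} (h1 : -2 ≤ t) (k : ℕ) : 0 ≤ gg t + 2 / 3 * ((k : ℝ) ^ 2 - k) + 2 * t * k := by
  have h2 := gg_nonneg t
  have h3 := gg_one t
  have h4 := gg_two t
  have h5 := gg_three t
  rcases Nat.lt_or_ge k 3 with hk | hk
  · interval_cases k
    · norm_num; linarith
    · norm_num; linarith
    · norm_num; linarith
  · have h6 : (0 : ℝ) ≤ ((k : ℝ) - 3) * ((k : ℝ) - 4) := by
      rcases Nat.lt_or_ge k 4 with hk4 | hk4
      · have : k = 3 := by omega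
        rw [this]; norm_num
      · have h7 : (4 : ℝ) ≤ k := by exact_mod_cast hk4
        exact mul_nonneg (by linarith) (by linarith)
    have h8 : (3 : ℝ) ≤ k := by exact_mod_cast hk
    have h9 : 0 ≤ (t + 2) * ((k : ℝ) - 3) := mul_nonneg (by linarith) (by linarith)
    nlinarith

/-- the clamped function -/
noncomputable def gc (t : ℝ) : ℝ := gg (max (-2) (min 2 t))

theorem gc_cont : Continuous gc := gg_cont.comp (by fun_prop)

theorem gc_eq {t : ℝ} (h1 : -2 ≤ t) (h2 : t ≤ 2) : gc t = gg t := by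
  unfold gc
  rw [min_eq_right h2, max_eq_right h1]

theorem gc_abs (t : ℝ) : |gc t| ≤ 8 := by
  unfold gc
  rw [abs_of_nonneg (gg_nonneg _)]
  exact gg_le (le_max_left _ _) (max_le (by norm_num) (min_le_left _ _))

theorem law_bound (hAB : S_ABEL) (hST : S_INTST) (hCM : S_INTCM) (a b : ℤ) (N : ℕ) [NeZero N]
    (f : CuspForm (Gamma0 N : Subgroup (GL (Fin 2) ℝ)) 2) (w : ℝ) (hab : 4 * a ^ 3 + 27 * b ^ 2 ≠ 0)
    (hf : IsFormOf a b N f w) (hlaw : SatoTate a b ∨ CMLaw a b) :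
    ∃ δ₀ : ℝ, 0 < δ₀ ∧ ∀ δ : ℝ, 0 < δ → δ < δ₀ → W (fun p => gg (lam f p)) δ 0 ≤ 1.31 / δ := by
  classical
  set h : ℕ → ℝ := fun p => gc ((ap a b p : ℝ) / √(p : ℝ)) with hh
  have hbd : ∀ p : ℕ, p.Prime → |h p| ≤ 8 := fun p _ => gc_abs _
  -- the limit
  have hlim : ∃ v : ℝ, v ≤ 1.3 ∧ Tendsto (fun δ : ℝ => δ * W h δ 0) (𝓝[>] 0) (𝓝 v) := by
    rcases hlaw with hl | hl
    · refine ⟨_, ?_, hAB h _ 8 hbd (hl gc gc_cont)⟩
      refine le_trans (le_of_eq ?_) hST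
      congr 1
      refine intervalIntegral.integral_congr fun t ht => ?_
      rw [Set.uIcc_of_le (by norm_num)] at ht
      rw [gc_eq ht.1 ht.2]
    · refine ⟨_, ?_, hAB h _ 8 hbd (hl gc gc_cont)⟩
      refine le_trans (le_of_eq ?_) hCM
      rw [gc_eq (by norm_num) (by norm_num)]
      congr 2
      refine intervalIntegral.integral_congr fun t _ => ?_
      rw [gc_eq (by have := Real.neg_one_le_cos t; linarith) (by have := Real.cos_le_one t; linarith)]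
  obtain ⟨v, hv, hlim⟩ := hlim
  set D : ℕ := (2 * (4 * a ^ 3 + 27 * b ^ 2)).natAbs with hD
  have hD0 : D ≠ 0 := by
    rw [hD, Int.natAbs_ne_zero]
    exact mul_ne_zero two_ne_zero hab
  have hev : ∀ᶠ δ : ℝ in 𝓝[>] 0, δ * W h δ 0 < 1.305 :=
    hlim.eventually (gt_mem_nhds (by linarith [show (1.3 : ℝ) < 1.305 by norm_num]))
  rw [eventually_nhdsWithin_iff, Metric.eventually_nhds_iff] at hev
  obtain ⟨δ₁, hδ₁, hev⟩ := hev
  have hlD : 0 ≤ Real.log D := Real.log_natCast_nonneg _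
  refine ⟨min δ₁ (1 / (3200 * (Real.log D + 1))), lt_min hδ₁ (by positivity), fun δ hδ hδ' => ?_⟩
  have h1 : δ * W h δ 0 < 1.305 := by
    refine hev ?_ hδ
    rw [Real.dist_eq, sub_zero, abs_of_pos hδ]
    exact lt_of_lt_of_le hδ' (min_le_left _ _)
  have h2 : δ * (3200 * (Real.log D + 1)) ≤ 1 := by
    have h3 : δ ≤ 1 / (3200 * (Real.log D + 1)) := (lt_of_lt_of_le hδ' (min_le_right _ _)).le
    rwa [le_div_iff₀ (by positivity)] at h3
  have hlam := fun (p : ℕ) (hp : p.Prime) => abs_le.1 (lam_le hf hp)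
  have hggb : ∀ p : ℕ, p.Prime → |gg (lam f p)| ≤ 8 := fun p hp => by
    rw [abs_of_nonneg (gg_nonneg _)]
    exact gg_le (hlam p hp).1 (hlam p hp).2
  have s1 := W_hasSum (X := fun p => gg (lam f p)) (M := 8) hggb hδ 0
  have s2 := W_hasSum (X := h) (M := 8) hbd hδ 0
  obtain ⟨S, s3, hS⟩ := bad_sum (D := D) hD0 hδ
  have h4 : W (fun p => gg (lam f p)) δ 0 ≤ W h δ 0 + 8 * S := by
    refine hasSum_le (fun p => ?_) s1 (s2.add (s3.mul_left 8))
    have hww := ww_nonneg δ p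
    rw [zero_mul, Real.cos_zero, mul_one, mul_one]
    by_cases hp : (p : ℕ) ∣ D
    · rw [if_pos hp]
      have h5 : gg (lam f p) ≤ 8 := gg_le (hlam p p.2).1 (hlam p p.2).2
      have h6 : 0 ≤ h p := gg_nonneg _
      have h7 : gg (lam f p) * ww δ p ≤ 8 * ww δ p := mul_le_mul_of_nonneg_right h5 hww
      have h8 : 0 ≤ h p * ww δ p := mul_nonneg h6 hww
      linarith
    · rw [if_neg hp, mul_zero, add_zero]
      refine mul_le_mul_of_nonneg_right (le_of_eq ?_) hww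
      have h9 : coef f p = (ap a b p : ℂ) := hf.points p p.2 (by
        intro h10
        exact hp (by rw [hD]; exact Int.natCast_dvd.1 h10))
      have h10 : lam f p = (ap a b p : ℝ) / √((p : ℕ) : ℝ) := by
        unfold lam
        rw [h9, Complex.intCast_re]
      rw [hh]
      simp only
      rw [← h10, gc_eq (hlam p p.2).1 (hlam p p.2).2]
  rw [le_div_iff₀ hδ]
  have h5 : δ * S ≤ 1 / 3200 := by
    have : δ * S ≤ δ * (Real.log D + 1) := mul_le_mul_of_nonneg_left (by linarith) hδ.le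
    linarith
  have h6 := mul_le_mul_of_nonneg_right h4 hδ.le
  have h7 : (W h δ 0 + 8 * S) * δ = δ * W h δ 0 + 8 * (δ * S) := by ring
  rw [h7] at h6
  have h8 : (1.305 : ℝ) + 8 * (1 / 3200) ≤ 1.31 := by norm_num
  linarith

theorem fin2 {X A Q nS FL C5 C1B Cl m2 n2 c5L c1L ℒ : ℝ} (hX : 0 < X) (hA : A ≤ 131 / 100 * X)
    (hQ : Q ≤ X + m2) (hS : nS ≤ n2) (hFL : FL ≤ C5 - (199 / 200 * X - C1B)) (h5 : 2 * C5 ≤ c5L)
    (h1 : 2 * C1B ≤ c1L) (hCl : Cl = m2 + n2 + c5L + c1L + ℒ) (hm : 0 ≤ m2) (hn : 0 ≤ n2)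
    (hL : 200 * Cl ≤ X) (hℒ : 0 ≤ ℒ) (h : 0 ≤ A + 2 / 3 * (Q + nS) + 2 * FL) : False := by
  linarith

theorem core2 (hDED : S_DED) (hALG : S_ALG) (hPI : S_PI) (hEUL : S_EUL)
    {C1 : ℝ} (hC1 : 0 < C1) (a b : ℤ) (N : ℕ) [NeZero N]
    (f : CuspForm (Gamma0 N : Subgroup (GL (Fin 2) ℝ)) 2) (w : ℝ) (hab : 4 * a ^ 3 + 27 * b ^ 2 ≠ 0)
    (hf : IsFormOf a b N f w)
    (hlaw : ∃ δ₀ : ℝ, 0 < δ₀ ∧ ∀ δ : ℝ, 0 < δ → δ < δ₀ → W (fun p => gg (lam f p)) δ 0 ≤ 1.31 / δ)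
    (n : ℕ) : ∃ κ : ℝ, 0 < κ ∧ ∀ (K : Type) [Field K] [NumberField K],
    Module.finrank ℚ K = n → DoublyTransitive K →
    ∀ (α : HeightOneSpectrum (𝓞 K) → Fin 2 → ℂ) (F : ℂ → ℂ), IsParameter a b α → IsContinuation α F →
    ∀ B η : ℝ, 1 ≤ B → 0 ≤ η → η * (B + ld K + Real.log (|(0 : ℝ)| + 3)) ≤ κ →
      (∀ δ : ℝ, 0 < δ → δ ≤ 1 → δ / (δ + η) * (1 / δ) - C1 * B ≤
        (logDeriv F ((3 / 2 + δ : ℝ) + (0 : ℝ) * I)).re) → False := by
  classical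
  obtain ⟨C2', hC2', k2'⟩ := hDED (n ^ 2 - n)
  obtain ⟨C5, hC5, k5⟩ := hEUL a b N f w hab hf n
  obtain ⟨δ₀, hδ₀, k7⟩ := hlaw
  set Cst : ℝ := 2 * n * C2' + n ^ 2 + 2 * C5 + 2 * C1 + 1 with hCst
  have hCst0 : 0 < Cst := by positivity
  set κ' : ℝ := min (δ₀ / 2) (min 1 (1 / (200 * Cst))) with hκ'
  have hκ0 : 0 < κ' := by
    refine lt_min (by positivity) (lt_min one_pos (by positivity))
  have hκ1 : κ' ≤ 1 := (min_le_right _ _).trans (min_le_left _ _)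
  have hκ2 : κ' < δ₀ := lt_of_le_of_lt (min_le_left _ _) (by linarith)
  have hκ3 : κ' * (200 * Cst) ≤ 1 := by
    have h : κ' ≤ 1 / (200 * Cst) := (min_le_right _ _).trans (min_le_right _ _)
    rwa [le_div_iff₀ (by positivity)] at h
  refine ⟨κ' / 200, by positivity, ?_⟩
  intro K _ _ hn hDT α F hα hF B η hB hη hηκ hR
  obtain ⟨K₂, _, _, ⟨e⟩⟩ := hDT
  obtain ⟨hdim, hld, hcnt⟩ := hALG K K₂ ⟨e⟩
  rw [hn] at hdim hld
  have hK₂ : Module.finrank ℚ K₂ = n ^ 2 - n := by omega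
  have hn1 : (1 : ℝ) ≤ n := by
    have : 0 < Module.finrank ℚ K := Module.finrank_pos
    rw [hn] at this
    exact_mod_cast this
  set ℓ : ℝ := Real.log (|(0 : ℝ)| + 3) with hℓ
  have hℓ1 : 1 ≤ ℓ := log3 0
  have hldK := ld_nonneg K
  set ℒ : ℝ := B + ld K + ℓ with hℒ
  have hℒ1 : 1 ≤ ℒ := by linarith
  set δ : ℝ := κ' / ℒ with hδd
  have hδ : 0 < δ := by positivity
  have hδκ : δ ≤ κ' := div_le_self hκ0.le hℒ1
  have hδ1 : δ ≤ 1 := hδκ.trans hκ1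
  have hδℒ : δ * ℒ = κ' := by
    rw [hδd]
    field_simp
  have hδL : 200 * (Cst * ℒ) ≤ 1 / δ := by
    rw [le_div_iff₀ hδ]
    calc 200 * (Cst * ℒ) * δ = κ' * (200 * Cst) := by rw [← hδℒ]; ring
      _ ≤ 1 := hκ3
  have hηδ : η ≤ δ / 200 := by
    have h1 : η ≤ κ' / 200 / ℒ := by
      rwa [le_div_iff₀ (by linarith)]
    rwa [div_right_comm, ← hδd] at h1
  have b1 := k7 δ hδ (lt_of_le_of_lt hδκ hκ2)
  have hd0 : δ / (δ ^ 2 + (0 : ℝ) ^ 2) = 1 / δ := by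
    field_simp
    ring
  have q0 := k2' K₂ hK₂ δ 0 hδ hδ1
  rw [hd0] at q0
  obtain ⟨-, -, -, k5'⟩ := k5 K hn α F hα hF
  have f1 := k5' δ 0 hδ hδ1
  have f2 := hR δ hδ hδ1
  have hPK : ∀ p : ℕ, p.Prime → |((pi1 K p : ℕ) : ℝ)| ≤ n := fun p hp => by
    rw [abs_of_nonneg (Nat.cast_nonneg _)]
    have := hPI K p hp
    rw [hn] at this
    exact_mod_cast this
  have hPK₂ : ∀ p : ℕ, p.Prime → |((pi1 K₂ p : ℕ) : ℝ)| ≤ Module.finrank ℚ K₂ := fun p hp => by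
    rw [abs_of_nonneg (Nat.cast_nonneg _)]
    exact_mod_cast hPI K₂ p hp
  have hlam := fun (p : ℕ) (hp : p.Prime) => lam_le hf hp
  have sA := W_hasSum (X := fun p => gg (lam f p)) (M := 8) (fun p hp => by
    rw [abs_of_nonneg (gg_nonneg _)]
    exact gg_le (abs_le.1 (hlam p hp)).1 (abs_le.1 (hlam p hp)).2) hδ 0
  have sQ0 := W_hasSum (X := fun p => (pi1 K₂ p : ℝ)) (M := Module.finrank ℚ K₂) hPK₂ hδ 0
  have sFL := W_hasSum (X := fun p => lam f p * pi1 K p) (M := 2 * n) (fun p hp => by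
    rw [abs_mul]
    exact mul_le_mul (hlam p hp) (hPK p hp) (abs_nonneg _) (by norm_num)) hδ 0
  obtain ⟨S, sB, hSD⟩ := bad_sum (D := (NumberField.discr K).natAbs)
    (Int.natAbs_ne_zero.2 (NumberField.discr_ne_zero K)) hδ
  have hSD' : S ≤ ld K := by
    refine hSD.trans (le_of_eq ?_)
    unfold ld
    rw [Nat.cast_natAbs, Int.cast_abs]
  have tot := (sA.add ((sQ0.add (sB.mul_left ((n : ℝ) ^ 2))).mul_left (2 / 3))).add (sFL.mul_left 2)
  have tnn := tot.nonneg (fun p => by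
    have hp := p.2
    rw [zero_mul, Real.cos_zero]
    have hww := ww_nonneg δ p
    have hpw := gg_pw (t := lam f p) (abs_le.1 (hlam p hp)).1 (pi1 K p)
    have hle : ((pi1 K p : ℕ) : ℝ) ^ 2 - (pi1 K p : ℝ) ≤ (pi1 K₂ p : ℝ) +
        (n : ℝ) ^ 2 * (if (p : ℕ) ∣ (NumberField.discr K).natAbs then (1 : ℝ) else 0) := by
      split_ifs with hd
      · have h1 := (le_abs_self _).trans (hPK p hp)
        have h2 : (0 : ℝ) ≤ (pi1 K p : ℝ) := Nat.cast_nonneg _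
        have h3 : (0 : ℝ) ≤ (pi1 K₂ p : ℝ) := Nat.cast_nonneg _
        nlinarith
      · have h1 := hcnt p hp (by rwa [Int.natCast_dvd])
        rw [mul_zero, add_zero]
        have h2 : ((pi1 K p : ℕ) : ℝ) ^ 2 ≤ (pi1 K p : ℝ) + (pi1 K₂ p : ℝ) := by exact_mod_cast h1
        linarith
    have heq : (if (p : ℕ) ∣ (NumberField.discr K).natAbs then ww δ p else 0) =
        (if (p : ℕ) ∣ (NumberField.discr K).natAbs then (1 : ℝ) else 0) * ww δ p := by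
      split_ifs
      · rw [one_mul]
      · rw [zero_mul]
    have hfin : 0 ≤ gg (lam f p) + 2 / 3 * ((pi1 K₂ p : ℝ) +
        (n : ℝ) ^ 2 * (if (p : ℕ) ∣ (NumberField.discr K).natAbs then (1 : ℝ) else 0)) +
        2 * lam f p * (pi1 K p : ℝ) := by linarith
    have hmul := mul_nonneg hfin hww
    rw [heq]
    refine le_of_le_of_eq hmul ?_
    ring)
  have e1 := (abs_le.1 f1).2
  have hratio : 199 / 200 ≤ δ / (δ + η) := by
    rw [le_div_iff₀ (by linarith)]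
    linarith
  have hd : 0 < 1 / δ := by positivity
  have hR2 : 199 / 200 * (1 / δ) ≤ δ / (δ + η) * (1 / δ) := mul_le_mul_of_nonneg_right hratio hd.le
  have i3 : C2' * (ld K₂ + Real.log (|(0:ℝ)| + 3)) ≤ C2' * (2 * n * ℒ) := by
    refine mul_le_mul_of_nonneg_left ?_ hC2'.le
    have h1 : ℓ ≤ 2 * n * ℓ := by nlinarith
    have h2 : 0 ≤ 2 * n * B := by positivity
    have h3 : 2 * n * ℒ = 2 * n * B + 2 * n * ld K + 2 * n * ℓ := by rw [hℒ]; ring
    rw [h3]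
    have hld' : ld K₂ ≤ 2 * n * ld K := hld
    linarith
  have i5 : (n : ℝ) ^ 2 * S ≤ (n : ℝ) ^ 2 * ℒ :=
    mul_le_mul_of_nonneg_left (by linarith) (by positivity)
  have hC5' : 2 * C5 ≤ 2 * C5 * ℒ := le_mul_of_one_le_right (by positivity) hℒ1
  have hBL : 2 * (C1 * B) ≤ 2 * C1 * ℒ := by
    have : C1 * B ≤ C1 * ℒ := mul_le_mul_of_nonneg_left (by linarith) hC1.le
    linarith
  have hexp : Cst * ℒ = C2' * (2 * n * ℒ) + n ^ 2 * ℒ + 2 * C5 * ℒ + 2 * C1 * ℒ + ℒ := by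
    rw [hCst]; ring
  have b1' : W (fun p => gg (lam f p)) δ 0 ≤ 131 / 100 * (1 / δ) :=
    b1.trans (le_of_eq (by rw [show (1.31 : ℝ) = 131 / 100 by norm_num]; ring))
  have hpos2 : 0 ≤ C2' * (2 * n * ℒ) := by positivity
  have hpos3 : 0 ≤ (n : ℝ) ^ 2 * ℒ := by positivity
  have hLDa : 199 / 200 * (1 / δ) - C1 * B ≤ (logDeriv F ((3 / 2 + δ : ℝ) + (0 : ℝ) * I)).re :=
    le_trans (by linarith) f2
  have hFL : W (fun p => lam f p * pi1 K p) δ 0 ≤ C5 - (199 / 200 * (1 / δ) - C1 * B) := by linarith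
  have hQ : W (fun p => (pi1 K₂ p : ℝ)) δ 0 ≤ 1 / δ + C2' * (2 * n * ℒ) :=
    q0.trans (add_le_add le_rfl i3)
  exact fin2 hd b1' hQ i5 hFL hC5' hBL hexp hpos2 hpos3 hδL (by linarith) tnn

end Pool.Agent.U309.ZF
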