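import Pool.Agent.U309.ZF.Core

set_option autoImplicit false

open Metric Complex Set NumberField IsDedekindDomain MatrixGroups CongruenceSubgroup
open scoped TensorProduct ComplexConjugate

namespace Pool.Agent.U309.ZF

theorem re_form (x γ : ℝ) : (((x : ℝ) : ℂ) + γ * I).re = x ∧ (((x : ℝ) : ℂ) + γ * I).im = γ := by
  constructor
  · rw [add_re, ofReal_re, mul_re, ofReal_re, I_re, ofReal_im, I_im]; ring
  · rw [add_im, ofReal_im, mul_im, ofReal_re, I_re, ofReal_im, I_im]; ring

theorem form_eq (z : ℂ) : z = ((3 / 2 - (3 / 2 - z.re) : ℝ) : ℂ) + (z.im : ℂ) * I := by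
  apply Complex.ext
  · rw [(re_form _ _).1]; ring
  · rw [(re_form _ _).2]

/-- from the nonexistence of pairs and single zeros to the statement -/
theorem amo {F : ℂ → ℂ} {S : Set ℂ} (P : ℂ → Prop) (hS : ∀ z ∈ S, F z = 0 → P z ∧ z.re ≤ 3 / 2)
    (hconj : ∀ s : ℂ, F (conj s) = conj (F s))
    (hone : ∀ z, P z → F z = 0 → z.re ≤ 3 / 2 → 1 / 2 ≤ |z.im| → False)
    (hpair : ∀ z z', P z → P z' → F z = 0 → F z' = 0 → z.re ≤ 3 / 2 → z'.re ≤ 3 / 2 →
      |z.im| ≤ 1 / 2 → z'.im = -z.im → (z ≠ z' ∨ deriv F z = 0) → False)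
    (hPc : ∀ z, P z → P (conj z)) : AtMostOneReal F S := by
  have him : ∀ z ∈ S, F z = 0 → z.im = 0 := by
    intro z hz hz0
    obtain ⟨h1, h2⟩ := hS z hz hz0
    by_contra hne
    rcases le_total (1 / 2) |z.im| with h | h
    · exact hone z h1 hz0 h2 h
    · refine hpair z (conj z) h1 (hPc z h1) hz0 (by rw [hconj, hz0, map_zero]) h2 (by rwa [conj_re]) h
        (conj_im z) (Or.inl ?_)
      intro he
      have := congrArg Complex.im he
      rw [conj_im] at this
      exact hne (by linarith)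
  intro z hz hz0
  obtain ⟨h1, h2⟩ := hS z hz hz0
  have h3 := him z hz hz0
  refine ⟨h3, fun hd => ?_, fun z' hz' hz'0 => ?_⟩
  · exact hpair z z h1 h1 hz0 hz0 h2 h2 (by rw [h3, abs_zero]; norm_num) (by rw [h3, neg_zero])
      (Or.inr hd)
  · obtain ⟨h1', h2'⟩ := hS z' hz' hz'0
    have h3' := him z' hz' hz'0
    by_contra hne
    exact hpair z z' h1 h1' hz0 hz'0 h2 h2' (by rw [h3, abs_zero]; norm_num) (by rw [h3, h3', neg_zero])
      (Or.inl (Ne.symm hne))

theorem t_GOAL (hDED : S_DED) (hZETA : S_ZETA) (hRS : S_RS) (hALG : S_ALG) (hPI : S_PI) (hEUL : S_EUL)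
    (hLF : S_LF2) (hFE : S_FE) : Goal := by
  intro a b N _ f w hab hf n
  obtain ⟨Cn, hCn, kn⟩ := t_NEAR
  obtain ⟨Cm, hCm, km⟩ := t_NEAR1
  obtain ⟨C5, hC5, k5⟩ := hEUL a b N f w hab hf n
  obtain ⟨C7, hC7, k7⟩ := hFE n C5
  obtain ⟨κ, hκ, kc⟩ := core hDED hZETA hRS hALG hPI hEUL hLF
    (C1 := (Cn + Cm) * (1 + C5)) (by positivity) a b N f w hab hf n
  set c : ℝ := min κ (1 / 10) with hc
  have hc0 : 0 < c := lt_min hκ (by norm_num)
  have hcκ : c ≤ κ := min_le_left _ _
  have hc10 : c ≤ 1 / 10 := min_le_right _ _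
  refine ⟨c / (2 * C7 + 2), by positivity, ?_⟩
  intro K _ _ hn hDT α F hα hF
  obtain ⟨hnz, hconj, hbd, -⟩ := k5 K hn α F hα hF
  have hldK := ld_nonneg K
  have hFd := hF.1
  have hcent : ∀ γ : ℝ, ((5 / 2 : ℂ) + γ * I).re = 5 / 2 ∧ ((5 / 2 : ℂ) + γ * I).im = γ := by
    intro γ
    have := re_form (5 / 2) γ
    push_cast at this
    exact this
  have hne : ∃ v, F v ≠ 0 := ⟨(5 / 2 : ℂ) + (0 : ℝ) * I, hnz _ (by rw [(hcent 0).1]; norm_num)⟩
  -- the key fact, for a function `B` of the height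
  have key : ∀ (B : ℝ → ℝ), (∀ γ, B (-γ) = B γ) → ∀ S : Set ℂ,
      (∀ z ∈ S, 1 ≤ B z.im ∧ (∀ s ∈ closedBall ((5 / 2 : ℂ) + z.im * I) (5 / 2),
        ‖F s‖ ≤ Real.exp (B z.im)) ∧
        (3 / 2 - z.re) * (B z.im + ld K + Real.log (|z.im| + 3)) ≤ c) →
      AtMostOneReal F S := by
    intro B hBeven S hS
    refine amo (P := fun z => 1 ≤ B z.im ∧ (∀ s ∈ closedBall ((5 / 2 : ℂ) + z.im * I) (5 / 2),
        ‖F s‖ ≤ Real.exp (B z.im)) ∧
        (3 / 2 - z.re) * (B z.im + ld K + Real.log (|z.im| + 3)) ≤ c) ?_ hconj ?_ ?_ ?_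
    · intro z hz hz0
      refine ⟨hS z hz, ?_⟩
      by_contra hcon
      exact hnz z (not_le.1 hcon) hz0
    · -- one zero
      rintro z ⟨h1, h2, h3⟩ hz0 hre him
      set γ := z.im with hγ
      set η := 3 / 2 - z.re with hη
      have hη0 : 0 ≤ η := by linarith
      have hℓ := log3 γ
      have hL1 : 1 ≤ B γ + ld K + Real.log (|γ| + 3) := by linarith
      have hη10 : η ≤ 1 / 10 := by
        have : η * 1 ≤ η * (B γ + ld K + Real.log (|γ| + 3)) := mul_le_mul_of_nonneg_left hL1 hη0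
        linarith
      have hzf : z = ((3 / 2 - η : ℝ) : ℂ) + (γ : ℂ) * I := form_eq z
      refine kc K hn hDT α F hα hF γ (B γ) η h1 hη0 (h3.trans hcκ) fun δ hδ hδ1 => ?_
      obtain ⟨G, hG, -, hFG⟩ := fac1 hFd hne hz0
      have h4 := km F G γ (B γ + C5) z hFd hG hFG (by linarith)
        (fun s hs => (h2 s hs).trans (Real.exp_le_exp.2 (by linarith))) hnz
        ((Real.exp_le_exp.2 (by linarith)).trans (hbd ((5 / 2 : ℂ) + γ * I) (by
          rw [(hcent γ).1]; norm_num)).2) (by
          rw [hzf]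
          have e : ((3 / 2 - η : ℝ) : ℂ) + (γ : ℂ) * I - ((5 / 2 : ℂ) + γ * I) = ((-(1 + η) : ℝ) : ℂ) := by
            push_cast; ring
          rw [e, norm_real, Real.norm_eq_abs, abs_neg, abs_of_nonneg (by linarith)]
          linarith) δ hδ hδ1
      have h5 := re_one (γ := γ) hδ hη0 le_rfl
      rw [← hzf] at h5
      have h6 : δ / (δ + η) * (δ / (δ ^ 2 + (2 * γ) ^ 2)) ≤ 2 := by
        have h7 : δ / (δ + η) ≤ 1 := by
          rw [div_le_one (by linarith)]
          linarith
        have h8 : δ / (δ ^ 2 + (2 * γ) ^ 2) ≤ 1 := by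
          have h9 : 1 ≤ (2 * γ) ^ 2 := by
            rw [← sq_abs, abs_mul, abs_two]
            nlinarith
          rw [div_le_one (by positivity)]
          nlinarith
        have h10 : 0 ≤ δ / (δ ^ 2 + (2 * γ) ^ 2) := by positivity
        have h11 : 0 ≤ δ / (δ + η) := by positivity
        nlinarith
      have h12 : Cm * (B γ + C5) ≤ (Cn + Cm) * (1 + C5) * B γ := by
        have h13 : B γ + C5 ≤ (1 + C5) * B γ := by nlinarith
        have h14 := mul_le_mul_of_nonneg_left h13 hCm.le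
        have h15 : 0 ≤ Cn * ((1 + C5) * B γ) := by positivity
        nlinarith
      rw [mul_add]
      linarith
    · -- two zeros
      rintro z z' ⟨h1, h2, h3⟩ ⟨-, -, h3'⟩ hz0 hz'0 hre hre' him him' hd
      set γ := z.im with hγ
      rw [him', hBeven, abs_neg] at h3'
      have hℓ := log3 γ
      have hL1 : 1 ≤ B γ + ld K + Real.log (|γ| + 3) := by linarith
      set η₁ := 3 / 2 - z.re with hη₁
      set η₂ := 3 / 2 - z'.re with hη₂
      set η := max η₁ η₂ with hη
      have h01 : 0 ≤ η₁ := by linarith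
      have h02 : 0 ≤ η₂ := by linarith
      have l1 : η₁ ≤ η := le_max_left _ _
      have l2 : η₂ ≤ η := le_max_right _ _
      have hη0 : 0 ≤ η := h01.trans l1
      have hηc : η * (B γ + ld K + Real.log (|γ| + 3)) ≤ c := by
        rcases le_total η₁ η₂ with h | h
        · rw [hη, max_eq_right h]; exact h3'
        · rw [hη, max_eq_left h]; exact h3
      have hη10 : η ≤ 1 / 10 := by
        have : η * 1 ≤ η * (B γ + ld K + Real.log (|γ| + 3)) := mul_le_mul_of_nonneg_left hL1 hη0
        linarith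
      have hzf : z = ((3 / 2 - η₁ : ℝ) : ℂ) + (γ : ℂ) * I := form_eq z
      have hzf' : z' = ((3 / 2 - η₂ : ℝ) : ℂ) - (γ : ℂ) * I := by
        have := form_eq z'
        rw [him', ← hη₂] at this
        rw [this]
        push_cast
        ring
      refine kc K hn hDT α F hα hF γ (B γ) η h1 hη0 (hηc.trans hcκ) fun δ hδ hδ1 => ?_
      obtain ⟨G, hG, hFG⟩ := fac2 hFd hne hz0 hz'0 hd (by
        by_cases h : z = z'
        · exact Or.inr h
        · exact Or.inl h)
      have h4 := kn F G γ (B γ + C5) z z' hFd hG hFG (by linarith)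
        (fun s hs => (h2 s hs).trans (Real.exp_le_exp.2 (by linarith))) hnz
        ((Real.exp_le_exp.2 (by linarith)).trans (hbd ((5 / 2 : ℂ) + γ * I) (by
          rw [(hcent γ).1]; norm_num)).2) (by
          rw [hzf]
          have e : ((3 / 2 - η₁ : ℝ) : ℂ) + (γ : ℂ) * I - ((5 / 2 : ℂ) + γ * I) =
              ((-(1 + η₁) : ℝ) : ℂ) := by
            push_cast; ring
          rw [e, norm_real, Real.norm_eq_abs, abs_neg, abs_of_nonneg (by linarith)]
          linarith) (by
          rw [hzf']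
          have e : ((3 / 2 - η₂ : ℝ) : ℂ) - (γ : ℂ) * I - ((5 / 2 : ℂ) + γ * I) =
              ((-(1 + η₂) : ℝ) : ℂ) + ((-(2 * γ) : ℝ) : ℂ) * I := by
            push_cast; ring
          rw [e, norm_add_mul_I]
          rw [Real.sqrt_le_left (by norm_num)]
          have hγ2 : γ ^ 2 ≤ (1 / 2) ^ 2 := by
            rw [← sq_abs]
            exact pow_le_pow_left₀ (abs_nonneg _) him 2
          nlinarith) δ hδ hδ1
      have h5 := re_one (γ := γ) hδ h01 l1
      rw [← hzf] at h5
      have h6 := re_two (γ := γ) hδ h02 l2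
      rw [← hzf'] at h6
      have h12 : Cn * (B γ + C5) ≤ (Cn + Cm) * (1 + C5) * B γ := by
        have h13 : B γ + C5 ≤ (1 + C5) * B γ := by nlinarith
        have h14 := mul_le_mul_of_nonneg_left h13 hCn.le
        have h15 : 0 ≤ Cm * ((1 + C5) * B γ) := by positivity
        nlinarith
      rw [mul_add]
      linarith
    · -- conjugation
      rintro z ⟨h1, h2, h3⟩
      refine ⟨by rwa [conj_im, hBeven], ?_, ?_⟩
      · intro s hs
        rw [conj_im, hBeven]
        rw [conj_im] at hs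
        have h4 := h2 (conj s) (by
          rw [mem_closedBall, dist_eq] at hs ⊢
          have e : conj s - ((5 / 2 : ℂ) + z.im * I) = conj (s - ((5 / 2 : ℂ) + ((-z.im : ℝ) : ℂ) * I)) := by
            have h52 : conj (5 / 2 : ℂ) = 5 / 2 := by
              have e52 : (5 / 2 : ℂ) = ((5 / 2 : ℝ) : ℂ) := by push_cast; rfl
              rw [e52, conj_ofReal]
            rw [map_sub, map_add, map_mul, conj_ofReal, conj_I, h52]
            push_cast
            ring
          rw [e, norm_conj]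
          exact hs)
        rwa [hconj, norm_conj] at h4
      · rw [conj_im, conj_re, hBeven, abs_neg]
        exact h3
  have hcc : c / (2 * C7 + 2) ≤ c := div_le_self hc0.le (by linarith)
  have hball : ∀ (γ : ℝ) (s : ℂ), s ∈ closedBall ((5 / 2 : ℂ) + γ * I) (5 / 2) →
      |s.re - 5 / 2| ≤ 5 / 2 ∧ |s.im| ≤ |γ| + 5 / 2 := by
    intro γ s hs
    rw [mem_closedBall, dist_eq] at hs
    have h1 := (abs_re_le_norm (s - ((5 / 2 : ℂ) + γ * I))).trans hs
    have h2 := (abs_im_le_norm (s - ((5 / 2 : ℂ) + γ * I))).trans hs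
    rw [sub_re, (hcent γ).1] at h1
    rw [sub_im, (hcent γ).2] at h2
    refine ⟨h1, ?_⟩
    have h3 := abs_add_le (s.im - γ) γ
    rw [sub_add_cancel] at h3
    linarith
  constructor
  · intro T B hT hB hbox
    refine key (fun _ => B) (fun _ => rfl) _ ?_
    rintro z ⟨hz1, hz2⟩
    refine ⟨hB, fun s hs => ?_, ?_⟩
    · obtain ⟨h1, h2⟩ := hball _ s hs
      exact hbox s (by linarith) h1
    · have hℓ := log3 z.im
      have hℓT : Real.log (|z.im| + 3) ≤ Real.log (T + 3) :=
        Real.log_le_log (by positivity) (by linarith)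
      have hpos : 0 < B + ld K + Real.log (T + 3) := by linarith
      have h1 : 3 / 2 - z.re ≤ c / (2 * C7 + 2) / (B + ld K + Real.log (T + 3)) := by
        have := hz2
        change 3 / 2 - c / (2 * C7 + 2) / (B + ld K + Real.log (T + 3)) ≤ z.re at this
        linarith
      rw [le_div_iff₀ hpos] at h1
      rcases le_total (3 / 2 - z.re) 0 with h | h
      · have : (3 / 2 - z.re) * (B + ld K + Real.log (|z.im| + 3)) ≤ 0 :=
          mul_nonpos_of_nonpos_of_nonneg h (by linarith)
        linarith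
      · have : (3 / 2 - z.re) * (B + ld K + Real.log (|z.im| + 3)) ≤
            (3 / 2 - z.re) * (B + ld K + Real.log (T + 3)) :=
          mul_le_mul_of_nonneg_left (by linarith) h
        linarith
  · intro A v Λ hA hv hord hcomp
    have hgrow := k7 A v F Λ hA hv hFd hord hcomp (fun s hs => (hbd s hs).1)
    have hlogA : 0 ≤ Real.log A := Real.log_nonneg hA
    refine key (fun γ => C7 * (Real.log A + 2 * Real.log (|γ| + 3)) + 1)
      (fun γ => by simp only [abs_neg]) _ ?_
    intro z hz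
    have hz2 : 3 / 2 - c / (2 * C7 + 2) / (Real.log A + ld K + Real.log (|z.im| + 3)) ≤ z.re := hz
    have hℓ := log3 z.im
    set ℓ := Real.log (|z.im| + 3) with hℓd
    refine ⟨?_, fun s hs => ?_, ?_⟩
    · have : 0 ≤ C7 * (Real.log A + 2 * ℓ) := by positivity
      linarith
    · obtain ⟨h1, h2⟩ := hball _ s hs
      have h3 := abs_le.1 h1
      refine (hgrow s (by linarith [h3.1]) (by linarith [h3.2])).trans (Real.exp_le_exp.2 ?_)
      have h4 : Real.log (|s.im| + 3) ≤ 2 * ℓ := by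
        have h5 : Real.log (|s.im| + 3) ≤ Real.log ((|z.im| + 3) ^ 2) := by
          refine Real.log_le_log (by positivity) ?_
          nlinarith [abs_nonneg z.im]
        rw [Real.log_pow] at h5
        exact_mod_cast h5
      have h6 : C7 * (Real.log A + Real.log (|s.im| + 3)) ≤ C7 * (Real.log A + 2 * ℓ) :=
        mul_le_mul_of_nonneg_left (by linarith) hC7.le
      linarith
    · have hpos : 0 < Real.log A + ld K + ℓ := by linarith
      have h1 : 3 / 2 - z.re ≤ c / (2 * C7 + 2) / (Real.log A + ld K + ℓ) := by linarith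
      rw [le_div_iff₀ hpos, le_div_iff₀ (by positivity)] at h1
      have hbig : C7 * (Real.log A + 2 * ℓ) + 1 + ld K + ℓ ≤
          (Real.log A + ld K + ℓ) * (2 * C7 + 2) := by
        have j1 : 0 ≤ C7 * Real.log A := by positivity
        have j2 : 0 ≤ C7 * ld K := by positivity
        nlinarith
      rcases le_total (3 / 2 - z.re) 0 with h | h
      · have : (3 / 2 - z.re) * (C7 * (Real.log A + 2 * ℓ) + 1 + ld K + ℓ) ≤ 0 :=
          mul_nonpos_of_nonpos_of_nonneg h (by positivity)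
        linarith
      · have j3 := mul_le_mul_of_nonneg_left hbig h
        have j4 : (3 / 2 - z.re) * ((Real.log A + ld K + ℓ) * (2 * C7 + 2)) =
            (3 / 2 - z.re) * (Real.log A + ld K + ℓ) * (2 * C7 + 2) := by ring
        linarith

end Pool.Agent.U309.ZF
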