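import Pool.Agent.U309.ZF.Core2

set_option autoImplicit false

open Metric Complex Set NumberField IsDedekindDomain MatrixGroups CongruenceSubgroup
open scoped TensorProduct ComplexConjugate

namespace Pool.Agent.U309.ZF

/-- heights up to `T` -/
def zone₁ (c B D T : ℝ) : Set ℂ := {s : ℂ | |s.im| ≤ T ∧ 3 / 2 - c / (B + D + Real.log (T + 3)) ≤ s.re}

/-- all heights -/
def zone₂ (c A D : ℝ) : Set ℂ :=
  {s : ℂ | 3 / 2 - c / (Real.log A + D + Real.log (|s.im| + 3)) ≤ s.re}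

theorem amor_mono {F : ℂ → ℂ} {S S' : Set ℂ} (h : S' ⊆ S) (hS : AtMostOneReal F S) :
    AtMostOneReal F S' := fun z hz h0 =>
  ⟨(hS z (h hz) h0).1, (hS z (h hz) h0).2.1, fun z' hz' h0' => (hS z (h hz) h0).2.2 z' (h hz') h0'⟩

theorem zone₁_mono {c c' B D T : ℝ} (hcc : c' ≤ c) (h : 0 < B + D + Real.log (T + 3)) :
    zone₁ c' B D T ⊆ zone₁ c B D T := by
  rintro s ⟨h1, h2⟩
  refine ⟨h1, le_trans ?_ h2⟩
  have := div_le_div_of_nonneg_right hcc h.le
  linarith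

theorem zone₂_mono {c c' A D : ℝ} (hcc : c' ≤ c) (hA : 0 ≤ Real.log A) (hD : 0 ≤ D) :
    zone₂ c' A D ⊆ zone₂ c A D := by
  intro s hs
  have h2 : 3 / 2 - c' / (Real.log A + D + Real.log (|s.im| + 3)) ≤ s.re := hs
  have h := log3 s.im
  have := div_le_div_of_nonneg_right hcc (show 0 ≤ Real.log A + D + Real.log (|s.im| + 3) by linarith)
  change 3 / 2 - c / (Real.log A + D + Real.log (|s.im| + 3)) ≤ s.re
  linarith

/-- The theorem with both parts. -/
def Goal₂ : Prop := ∀ (a b : ℤ) (N : ℕ) [NeZero N]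
  (f : CuspForm (Gamma0 N : Subgroup (GL (Fin 2) ℝ)) 2) (w : ℝ), 4 * a ^ 3 + 27 * b ^ 2 ≠ 0 →
  IsFormOf a b N f w → ∀ n : ℕ, ∃ c : ℝ, 0 < c ∧ ∀ (K : Type) [Field K] [NumberField K],
  Module.finrank ℚ K = n → DoublyTransitive K →
  ∀ (α : HeightOneSpectrum (𝓞 K) → Fin 2 → ℂ) (F : ℂ → ℂ), IsParameter a b α → IsContinuation α F →
    (∀ T B : ℝ, 0 ≤ T → 1 ≤ B →
      (∀ s : ℂ, |s.im| ≤ T + 3 → |s.re - 5 / 2| ≤ 5 / 2 → ‖F s‖ ≤ Real.exp B) →
      AtMostOneReal F (zone₁ c B (ld K) T) ∧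
      ((SatoTate a b ∨ CMLaw a b) → ∀ z ∈ zone₁ c B (ld K) T, F z ≠ 0)) ∧
    ∀ (A : ℝ) (v : ℂ) (Λ : ℂ → ℂ), 1 ≤ A → (v = 1 ∨ v = -1) → FiniteOrder F →
      IsCompleted A n v F Λ →
      AtMostOneReal F (zone₂ c A (ld K)) ∧
      ((SatoTate a b ∨ CMLaw a b) → ∀ z ∈ zone₂ c A (ld K), F z ≠ 0)

theorem t_GOAL2 (hDED : S_DED) (hZETA : S_ZETA) (hRS : S_RS) (hALG : S_ALG) (hPI : S_PI) (hEUL : S_EUL)
    (hLF : S_LF2) (hFE : S_FE) (hAB : S_ABEL) (hST : S_INTST) (hCM : S_INTCM) : Goal₂ := by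
  intro a b N _ f w hab hf n
  obtain ⟨cA, hcA, kA⟩ := t_GOAL hDED hZETA hRS hALG hPI hEUL hLF hFE a b N f w hab hf n
  obtain ⟨Cm, hCm, km⟩ := t_NEAR1
  obtain ⟨C5, hC5, k5⟩ := hEUL a b N f w hab hf n
  obtain ⟨C7, hC7, k7⟩ := hFE n C5
  -- the constant of the second part
  have hκ : ∃ κ : ℝ, 0 < κ ∧ ((SatoTate a b ∨ CMLaw a b) → ∀ (K : Type) [Field K] [NumberField K],
      Module.finrank ℚ K = n → DoublyTransitive K →
      ∀ (α : HeightOneSpectrum (𝓞 K) → Fin 2 → ℂ) (F : ℂ → ℂ), IsParameter a b α →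
      IsContinuation α F →
      ∀ B η : ℝ, 1 ≤ B → 0 ≤ η → η * (B + ld K + Real.log (|(0 : ℝ)| + 3)) ≤ κ →
      (∀ δ : ℝ, 0 < δ → δ ≤ 1 → δ / (δ + η) * (1 / δ) - Cm * (1 + C5) * B ≤
        (logDeriv F ((3 / 2 + δ : ℝ) + (0 : ℝ) * I)).re) → False) := by
    by_cases hlaw : SatoTate a b ∨ CMLaw a b
    · obtain ⟨κ, h1, h2⟩ := core2 hDED hALG hPI hEUL (C1 := Cm * (1 + C5)) (by positivity) a b N f w hab
        hf (law_bound hAB hST hCM a b N f w hab hf hlaw) n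
      exact ⟨κ, h1, fun _ => h2⟩
    · exact ⟨1, one_pos, fun h => absurd h hlaw⟩
  obtain ⟨κ, hκ0, kc⟩ := hκ
  set c : ℝ := min κ (1 / 10) with hc
  have hc0 : 0 < c := lt_min hκ0 (by norm_num)
  have hcκ : c ≤ κ := min_le_left _ _
  have hc10 : c ≤ 1 / 10 := min_le_right _ _
  refine ⟨min cA (c / (2 * C7 + 2)), lt_min hcA (by positivity), ?_⟩
  set c' : ℝ := min cA (c / (2 * C7 + 2)) with hc'
  have hcc1 : c' ≤ cA := min_le_left _ _
  have hcc2 : c' ≤ c / (2 * C7 + 2) := min_le_right _ _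
  have hcc3 : c' ≤ c := hcc2.trans (div_le_self hc0.le (by linarith))
  intro K _ _ hn hDT α F hα hF
  obtain ⟨hnz, hconj, hbd, -⟩ := k5 K hn α F hα hF
  obtain ⟨kA1, kA2⟩ := kA K hn hDT α F hα hF
  have hldK := ld_nonneg K
  have hFd := hF.1
  have hcent : ((5 / 2 : ℂ) + (0 : ℝ) * I).re = 5 / 2 ∧ ((5 / 2 : ℂ) + (0 : ℝ) * I).im = 0 := by
    have := re_form (5 / 2) 0
    push_cast at this ⊢
    exact this
  have hne : ∃ v, F v ≠ 0 := ⟨(5 / 2 : ℂ) + (0 : ℝ) * I, hnz _ (by rw [hcent.1]; norm_num)⟩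
  have hlog0 : 1 ≤ Real.log (|(0 : ℝ)| + 3) := log3 0
  -- no real zero
  have key : (SatoTate a b ∨ CMLaw a b) → ∀ (B : ℝ) (z : ℂ), 1 ≤ B → z.im = 0 →
      (∀ s ∈ closedBall ((5 / 2 : ℂ) + (0 : ℝ) * I) (5 / 2), ‖F s‖ ≤ Real.exp B) →
      (3 / 2 - z.re) * (B + ld K + Real.log (|(0 : ℝ)| + 3)) ≤ c → F z ≠ 0 := by
    intro hlaw B z hB him h2 h3 hz0
    have hre : z.re ≤ 3 / 2 := by
      by_contra hcon
      exact hnz z (not_le.1 hcon) hz0
    set η := 3 / 2 - z.re with hη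
    have hη0 : 0 ≤ η := by linarith
    have hL1 : 1 ≤ B + ld K + Real.log (|(0 : ℝ)| + 3) := by linarith
    have hη10 : η ≤ 1 / 10 := by
      have : η * 1 ≤ η * (B + ld K + Real.log (|(0 : ℝ)| + 3)) := mul_le_mul_of_nonneg_left hL1 hη0
      linarith
    have hzf : z = ((3 / 2 - η : ℝ) : ℂ) + ((0 : ℝ) : ℂ) * I := by
      have := form_eq z
      rw [him] at this
      exact this
    refine kc hlaw K hn hDT α F hα hF B η hB hη0 (h3.trans hcκ) fun δ hδ hδ1 => ?_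
    obtain ⟨G, hG, -, hFG⟩ := fac1 hFd hne hz0
    have h4 := km F G 0 (B + C5) z hFd hG hFG (by linarith)
      (fun s hs => (h2 s hs).trans (Real.exp_le_exp.2 (by linarith))) hnz
      ((Real.exp_le_exp.2 (by linarith)).trans (hbd ((5 / 2 : ℂ) + (0 : ℝ) * I) (by
        rw [hcent.1]; norm_num)).2) (by
        rw [hzf]
        have e : ((3 / 2 - η : ℝ) : ℂ) + ((0 : ℝ) : ℂ) * I - ((5 / 2 : ℂ) + (0 : ℝ) * I) =
            ((-(1 + η) : ℝ) : ℂ) := by
          push_cast; ring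
        rw [e, norm_real, Real.norm_eq_abs, abs_neg, abs_of_nonneg (by linarith)]
        linarith) δ hδ hδ1
    have h5 := re_one (γ := 0) hδ hη0 le_rfl
    rw [← hzf] at h5
    have h12 : Cm * (B + C5) ≤ Cm * (1 + C5) * B := by
      have h13 : B + C5 ≤ (1 + C5) * B := by nlinarith
      have h14 := mul_le_mul_of_nonneg_left h13 hCm.le
      nlinarith
    refine le_trans (sub_le_sub h5 h12) h4
  have hball : ∀ (s : ℂ), s ∈ closedBall ((5 / 2 : ℂ) + (0 : ℝ) * I) (5 / 2) →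
      |s.re - 5 / 2| ≤ 5 / 2 ∧ |s.im| ≤ 5 / 2 := by
    intro s hs
    rw [mem_closedBall, dist_eq] at hs
    have h1 := (abs_re_le_norm (s - ((5 / 2 : ℂ) + (0 : ℝ) * I))).trans hs
    have h2 := (abs_im_le_norm (s - ((5 / 2 : ℂ) + (0 : ℝ) * I))).trans hs
    rw [sub_re, hcent.1] at h1
    rw [sub_im, hcent.2, sub_zero] at h2
    exact ⟨h1, h2⟩
  constructor
  · intro T B hT hB hbox
    have hpos : 0 < B + ld K + Real.log (T + 3) := by
      have : 0 ≤ Real.log (T + 3) := Real.log_nonneg (by linarith)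
      linarith
    have hA : AtMostOneReal F (zone₁ cA B (ld K) T) := kA1 T B hT hB hbox
    refine ⟨amor_mono (zone₁_mono hcc1 hpos) hA, fun hlaw z hz hz0 => ?_⟩
    have him : z.im = 0 := (hA z (zone₁_mono hcc1 hpos hz) hz0).1
    refine key hlaw B z hB him (fun s hs => ?_) ?_ hz0
    · obtain ⟨h1, h2⟩ := hball s hs
      exact hbox s (by linarith) h1
    · have hℓT : Real.log (|(0 : ℝ)| + 3) ≤ Real.log (T + 3) := by
        rw [abs_zero]
        exact Real.log_le_log (by norm_num) (by linarith)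
      have h1 : 3 / 2 - z.re ≤ c / (B + ld K + Real.log (T + 3)) := by
        have h2 := hz.2
        have h3 := div_le_div_of_nonneg_right hcc3 hpos.le
        linarith
      rw [le_div_iff₀ hpos] at h1
      rcases le_total (3 / 2 - z.re) 0 with h | h
      · have : (3 / 2 - z.re) * (B + ld K + Real.log (|(0 : ℝ)| + 3)) ≤ 0 :=
          mul_nonpos_of_nonpos_of_nonneg h (by linarith)
        linarith
      · have : (3 / 2 - z.re) * (B + ld K + Real.log (|(0 : ℝ)| + 3)) ≤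
            (3 / 2 - z.re) * (B + ld K + Real.log (T + 3)) :=
          mul_le_mul_of_nonneg_left (by linarith) h
        linarith
  · intro A v Λ hA1 hv hord hcomp
    have hlogA : 0 ≤ Real.log A := Real.log_nonneg hA1
    have hA : AtMostOneReal F (zone₂ cA A (ld K)) := kA2 A v Λ hA1 hv hord hcomp
    refine ⟨amor_mono (zone₂_mono hcc1 hlogA hldK) hA, fun hlaw z hz hz0 => ?_⟩
    have him : z.im = 0 := (hA z (zone₂_mono hcc1 hlogA hldK hz) hz0).1
    have hgrow := k7 A v F Λ hA1 hv hFd hord hcomp (fun s hs => (hbd s hs).1)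
    set ℓ := Real.log (|(0 : ℝ)| + 3) with hℓd
    refine key hlaw (C7 * (Real.log A + 2 * ℓ) + 1) z ?_ him (fun s hs => ?_) ?_ hz0
    · have : 0 ≤ C7 * (Real.log A + 2 * ℓ) := by positivity
      linarith
    · obtain ⟨h1, h2⟩ := hball s hs
      have h3 := abs_le.1 h1
      refine (hgrow s (by linarith [h3.1]) (by linarith [h3.2])).trans (Real.exp_le_exp.2 ?_)
      have h4 : Real.log (|s.im| + 3) ≤ 2 * ℓ := by
        have h5 : Real.log (|s.im| + 3) ≤ Real.log ((|(0 : ℝ)| + 3) ^ 2) := by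
          refine Real.log_le_log (by positivity) ?_
          rw [abs_zero]
          linarith
        rw [Real.log_pow, Nat.cast_ofNat, ← hℓd] at h5
        exact h5
      have h6 : C7 * (Real.log A + Real.log (|s.im| + 3)) ≤ C7 * (Real.log A + 2 * ℓ) :=
        mul_le_mul_of_nonneg_left (by linarith) hC7.le
      linarith
    · have hz2 : 3 / 2 - c' / (Real.log A + ld K + Real.log (|z.im| + 3)) ≤ z.re := hz
      rw [him, ← hℓd] at hz2
      have hpos : 0 < Real.log A + ld K + ℓ := by linarith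
      have h1 : 3 / 2 - z.re ≤ c / (2 * C7 + 2) / (Real.log A + ld K + ℓ) := by
        have h3 := div_le_div_of_nonneg_right hcc2 hpos.le
        linarith
      rw [le_div_iff₀ hpos, le_div_iff₀ (by positivity)] at h1
      have hbig : C7 * (Real.log A + 2 * ℓ) + 1 + ld K + ℓ ≤
          (Real.log A + ld K + ℓ) * (2 * C7 + 2) := by
        have j1 : 0 ≤ C7 * Real.log A := by positivity
        have j2 : 0 ≤ C7 * ld K := by positivity
        nlinarith
      rcases le_total (3 / 2 - z.re) 0 with h | h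
      · have : (3 / 2 - z.re) * (C7 * (Real.log A + 2 * ℓ) + 1 + ld K + ℓ) ≤ 0 :=
          mul_nonpos_of_nonpos_of_nonneg h (by positivity)
        linarith
      · have j3 := mul_le_mul_of_nonneg_left hbig h
        have j4 : (3 / 2 - z.re) * ((Real.log A + ld K + ℓ) * (2 * C7 + 2)) =
            (3 / 2 - z.re) * (Real.log A + ld K + ℓ) * (2 * C7 + 2) := by ring
        linarith

end Pool.Agent.U309.ZF
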