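import Pool.Agent.U309.ZF.Stm
import Pool.Agent.H437R2.A2

set_option autoImplicit false

open Metric Complex Set

namespace Pool.Agent.U309.ZF

/-- the logarithmic derivative of a bounded function without zeros to the right of `3/2` -/
theorem near_base {G : ℂ → ℂ} {γ B : ℝ} (hG : Differentiable ℂ G) (hB : 1 ≤ B)
    (h1 : ∀ s ∈ closedBall ((5 / 2 : ℂ) + γ * I) (5 / 2), ‖G s‖ ≤ Real.exp B)
    (h2 : ∀ s : ℂ, 3 / 2 < s.re → G s ≠ 0)
    (h3 : Real.exp (-B) ≤ 9 / 4 * ‖G ((5 / 2 : ℂ) + γ * I)‖) {δ : ℝ} (hδ : 0 < δ) (hδ1 : δ ≤ 1) :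
    -(800 * B) ≤ (logDeriv G ((3 / 2 + δ : ℝ) + γ * I)).re := by
  set c : ℂ := (5 / 2 : ℂ) + γ * I with hc
  set z : ℂ := ((3 / 2 + δ : ℝ) + γ * I) with hz
  have hcre : c.re = 5 / 2 := by
    simp only [hc, add_re, mul_re, ofReal_re, I_re, mul_zero, ofReal_im, I_im, mul_one, sub_self,
      add_zero]
    norm_num
  have hzre : z.re = 3 / 2 + δ := by
    rw [hz, add_re, ofReal_re, mul_re, ofReal_re, I_re, ofReal_im, I_im]
    ring
  have hGc : G c ≠ 0 := h2 c (by rw [hcre]; norm_num)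
  obtain ⟨L, hL1, -, -, hL4⟩ := Pool.Agent.H437R2.landau G hG c (r := 1) (R1 := 5 / 4) (R2 := 5 / 2)
    (M := Real.exp B) one_pos (by norm_num) (by norm_num) hGc h1
  have hzc : z ∈ closedBall c 1 := by
    rw [mem_closedBall, dist_eq]
    have e : z - c = ((δ - 1 : ℝ) : ℂ) := by
      rw [hz, hc]; push_cast; ring
    rw [e, norm_real, Real.norm_eq_abs, abs_le]
    constructor <;> linarith
  have hGz : G z ≠ 0 := h2 z (by rw [hzre]; linarith)
  have h4 := hL4 z hzc hGz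
  have hlog : Real.log ((5 / 4 : ℝ) / (5 / 2 - 5 / 4)) = 0 := by
    rw [show (5 / 4 : ℝ) / (5 / 2 - 5 / 4) = 1 by norm_num, Real.log_one]
  rw [hlog, abs_zero, mul_zero, add_zero] at h4
  have hGc0 : 0 < ‖G c‖ := norm_pos_iff.2 hGc
  have h5 : Real.log (Real.exp B / ‖G c‖) ≤ 2 * B + 1 := by
    rw [Real.log_div (Real.exp_pos B).ne' hGc0.ne', Real.log_exp]
    have h6 : -B ≤ Real.log (9 / 4 * ‖G c‖) := by
      rw [Real.le_log_iff_exp_le (by positivity)]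
      exact h3
    rw [Real.log_mul (by norm_num) hGc0.ne'] at h6
    have h7 : Real.log (9 / 4 : ℝ) ≤ 1 := by
      rw [Real.log_le_iff_le_exp (by norm_num)]
      have := Real.exp_one_gt_d9
      linarith
    linarith
  have h8 : ‖deriv G z / G z - (L.map (fun ρ => (z - ρ)⁻¹)).sum‖ ≤ 800 * B := by
    refine h4.trans ?_
    have : 8 * (5 / 4 : ℝ) / (5 / 4 - 1) ^ 2 = 160 := by norm_num
    rw [this]
    nlinarith
  have h9 : 0 ≤ ((L.map (fun ρ => (z - ρ)⁻¹)).sum).re := by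
    have h10 : ∀ l : List ℂ, (∀ ρ ∈ l, G ρ = 0) → 0 ≤ ((l.map (fun ρ => (z - ρ)⁻¹)).sum).re := by
      intro l
      induction l with
      | nil => intro _; simp
      | cons a l ih =>
        intro hl
        rw [List.map_cons, List.sum_cons, add_re]
        have ha : a.re ≤ 3 / 2 := by
          by_contra hcon
          exact h2 a (not_le.1 hcon) (hl a (by simp))
        have h11 : 0 ≤ ((z - a)⁻¹).re := by
          rw [inv_re]
          refine div_nonneg ?_ (normSq_nonneg _)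
          rw [sub_re, hzre]
          linarith
        exact add_nonneg h11 (ih fun ρ hρ => hl ρ (by simp [hρ]))
    exact h10 L fun ρ hρ => (hL1 ρ hρ).1
  have h12 := abs_le.1 ((abs_re_le_norm (deriv G z / G z - (L.map (fun ρ => (z - ρ)⁻¹)).sum)).trans h8)
  rw [sub_re] at h12
  rw [logDeriv_apply]
  linarith [h12.1]

/-- a quotient of a bounded function by a polynomial -/
theorem quot_bound {F G P : ℂ → ℂ} {γ B : ℝ} (hG : Differentiable ℂ G) (hFP : ∀ s, F s = P s * G s)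
    (hF : ∀ s ∈ closedBall ((5 / 2 : ℂ) + γ * I) (5 / 2), ‖F s‖ ≤ Real.exp B)
    (hP : ∀ s ∈ sphere ((5 / 2 : ℂ) + γ * I) (5 / 2), 1 ≤ ‖P s‖) :
    ∀ s ∈ closedBall ((5 / 2 : ℂ) + γ * I) (5 / 2), ‖G s‖ ≤ Real.exp B := by
  intro s hs
  refine Complex.norm_le_of_forall_mem_frontier_norm_le (U := ball ((5 / 2 : ℂ) + γ * I) (5 / 2))
    isBounded_ball hG.diffContOnCl ?_ ?_
  · intro z hz
    rw [frontier_ball _ (by norm_num : (5 / 2 : ℝ) ≠ 0)] at hz
    have h1 := hF z (sphere_subset_closedBall hz)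
    rw [hFP z, norm_mul] at h1
    have h2 := hP z hz
    nlinarith [norm_nonneg (G z)]
  · rwa [closure_ball _ (by norm_num : (5 / 2 : ℝ) ≠ 0)]

theorem far_sphere {c ρ s : ℂ} (h : ‖ρ - c‖ ≤ 3 / 2) (hs : s ∈ sphere c (5 / 2)) : 1 ≤ ‖s - ρ‖ := by
  rw [mem_sphere, dist_eq] at hs
  have h1 : ‖s - c‖ ≤ ‖s - ρ‖ + ‖ρ - c‖ := by
    have := norm_add_le (s - ρ) (ρ - c)
    rwa [sub_add_sub_cancel] at this
  linarith

theorem t_NEAR : S_NEAR := by
  refine ⟨800, by norm_num, ?_⟩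
  intro F G γ B ρ₁ ρ₂ hF hG hFG hB h1 h2 h3 hρ₁ hρ₂ δ hδ hδ1
  set c : ℂ := (5 / 2 : ℂ) + γ * I with hc
  set z : ℂ := ((3 / 2 + δ : ℝ) + γ * I) with hz
  have hzre : z.re = 3 / 2 + δ := by
    rw [hz, add_re, ofReal_re, mul_re, ofReal_re, I_re, ofReal_im, I_im]
    ring
  have hG2 : ∀ s : ℂ, 3 / 2 < s.re → G s ≠ 0 := by
    intro s hs h0
    exact h2 s hs (by rw [hFG, h0, mul_zero])
  have hG1 := quot_bound (P := fun s => (s - ρ₁) * (s - ρ₂)) hG hFG h1 (by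
    intro s hs
    rw [norm_mul]
    have a1 := far_sphere hρ₁ hs
    have a2 := far_sphere hρ₂ hs
    nlinarith)
  have hG3 : Real.exp (-B) ≤ 9 / 4 * ‖G c‖ := by
    rw [hFG c, norm_mul, norm_mul, norm_sub_rev c ρ₁, norm_sub_rev c ρ₂] at h3
    refine h3.trans ?_
    have : ‖ρ₁ - c‖ * ‖ρ₂ - c‖ ≤ 3 / 2 * (3 / 2) :=
      mul_le_mul hρ₁ hρ₂ (norm_nonneg _) (by norm_num)
    nlinarith [norm_nonneg (G c)]
  have hb := near_base hG hB hG1 hG2 hG3 hδ hδ1
  rw [← hz] at hb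
  have hFz : F z ≠ 0 := h2 z (by rw [hzre]; linarith)
  have hFz' := hFz
  rw [hFG z] at hFz'
  have n1 : z - ρ₁ ≠ 0 := left_ne_zero_of_mul (left_ne_zero_of_mul hFz')
  have n2 : z - ρ₂ ≠ 0 := right_ne_zero_of_mul (left_ne_zero_of_mul hFz')
  have n3 : G z ≠ 0 := right_ne_zero_of_mul hFz'
  have e : logDeriv F z = (z - ρ₁)⁻¹ + (z - ρ₂)⁻¹ + logDeriv G z := by
    have hfun : F = fun s => (s - ρ₁) * (s - ρ₂) * G s := funext hFG
    rw [hfun]
    have d1 : DifferentiableAt ℂ (fun s : ℂ => s - ρ₁) z := by fun_prop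
    have d2 : DifferentiableAt ℂ (fun s : ℂ => s - ρ₂) z := by fun_prop
    rw [logDeriv_mul (f := fun s => (s - ρ₁) * (s - ρ₂)) z (mul_ne_zero n1 n2) n3 (d1.mul d2) (hG z),
      logDeriv_mul (f := fun s => s - ρ₁) z n1 n2 d1 d2]
    simp only [logDeriv_apply, deriv_sub_const, deriv_id'', one_div]
  rw [e, add_re, add_re]
  have := hb
  linarith

theorem t_NEAR1 : S_NEAR1 := by
  refine ⟨800, by norm_num, ?_⟩
  intro F G γ B ρ hF hG hFG hB h1 h2 h3 hρ δ hδ hδ1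
  set c : ℂ := (5 / 2 : ℂ) + γ * I with hc
  set z : ℂ := ((3 / 2 + δ : ℝ) + γ * I) with hz
  have hzre : z.re = 3 / 2 + δ := by
    rw [hz, add_re, ofReal_re, mul_re, ofReal_re, I_re, ofReal_im, I_im]
    ring
  have hG2 : ∀ s : ℂ, 3 / 2 < s.re → G s ≠ 0 := by
    intro s hs h0
    exact h2 s hs (by rw [hFG, h0, mul_zero])
  have hG1 := quot_bound (P := fun s => (s - ρ)) hG hFG h1 (fun s hs => far_sphere hρ hs)
  have hG3 : Real.exp (-B) ≤ 9 / 4 * ‖G c‖ := by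
    rw [hFG c, norm_mul, norm_sub_rev c ρ] at h3
    refine h3.trans ?_
    nlinarith [norm_nonneg (G c)]
  have hb := near_base hG hB hG1 hG2 hG3 hδ hδ1
  rw [← hz] at hb
  have hFz : F z ≠ 0 := h2 z (by rw [hzre]; linarith)
  have hFz' := hFz
  rw [hFG z] at hFz'
  have n1 : z - ρ ≠ 0 := left_ne_zero_of_mul hFz'
  have n3 : G z ≠ 0 := right_ne_zero_of_mul hFz'
  have e : logDeriv F z = (z - ρ)⁻¹ + logDeriv G z := by
    have hfun : F = fun s => (s - ρ) * G s := funext hFG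
    rw [hfun]
    have d1 : DifferentiableAt ℂ (fun s : ℂ => s - ρ) z := by fun_prop
    rw [logDeriv_mul (f := fun s => (s - ρ)) z n1 n3 d1 (hG z)]
    simp only [logDeriv_apply, deriv_sub_const, deriv_id'', one_div]
  rw [e, add_re]
  have := hb
  linarith

end Pool.Agent.U309.ZF
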